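import Pool.Agent.H17BP.Surf
import Pool.Agent.H17BP.Model
import Pool.Agent.H17EF.Bridge
import Pool.Agent.SG.DuvD

/-!
# SG2 NegD: surfaces with negative curves, the definitions for the final statement

`NegSurf`: a section `Ω` of `m K - j H` whose zeros are contained in the curve `D₀ = {Q k = 0 for all k}`.
-/

set_option autoImplicit false

open Topology Filter MvPolynomial

namespace Pool.Agent.SG2

open Pool.Agent.H36.BP (EN)
open Pool.Agent.H17BP (Pr IsForm NoZeros IsChart)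
open Pool.Agent.H17EF (coneE)
open Pool.Agent.SG (MinusTwo)

variable {N : ℕ}

/-- A rational curve of degree `d` in the surface with the cone `X`: `K` is the lift of the affine line, `K'` the lift near infinity. -/
structure RatCurve (X : Set (EN N)) (d : ℕ) (K K' : ℂ → EN N) : Prop where
  diff : Differentiable ℂ K
  diff' : Differentiable ℂ K'
  mem : ∀ z, K z ∈ X
  mem' : ∀ z, K' z ∈ X
  rel : ∀ z : ℂ, z ≠ 0 → K z = z ^ d • K' z⁻¹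

/-- the common zeros of the forms `Q k` on the surface -/
def zers (P : Ideal (MvPolynomial (Fin (N + 1)) ℂ)) {κ : Type} (Q : κ → MvPolynomial (Fin (N + 1)) ℂ) : Set (EN N) :=
  {x | x ∈ coneE P ∧ ∀ k, eval x.ofLp (Q k) = 0}

/-- The curve `zers P Q` is smooth at `x`, given in the chart `σ` by `p.1 = 0`, with the reduced equation `Q k`, and `Ω` vanishes to order at most `μ`. -/
def SmoothPt (P : Ideal (MvPolynomial (Fin (N + 1)) ℂ)) (Ω : EN N → EN N → EN N → ℂ) {κ : Type} (Q : κ → MvPolynomial (Fin (N + 1)) ℂ) (μ : ℕ)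
    (x : EN N) : Prop :=
  ∃ (k : κ) (σ : ℂ × ℂ → EN N) (τ : EN N → ℂ × ℂ), IsChart (coneE P) σ τ ∧ σ 0 = x ∧
    (∃ R : ℂ × ℂ → ℂ, AnalyticAt ℂ R 0 ∧ R 0 ≠ 0 ∧ ∀ᶠ p in 𝓝 (0 : ℂ × ℂ), eval (σ p).ofLp (Q k) = p.1 * R p) ∧
    (∀ᶠ p in 𝓝 (0 : ℂ × ℂ), p.1 = 0 → ∀ i, eval (σ p).ofLp (Q i) = 0) ∧
    ∃ B : ℝ, ∀ᶠ p in 𝓝 (0 : ℂ × ℂ), ‖p.1‖ ^ μ ≤ B * ‖Ω (σ p) (fderiv ℂ σ p (1, 0)) (fderiv ℂ σ p (0, 1))‖

/-- Two smooth rational curves with self-intersection `-2` meet transversally at `x` (given by the local models `MinusTwo`). -/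
def Crossing (X : Set (EN N)) (x : EN N) : Prop :=
  ∃ (σ₁ : ℂ × ℂ → EN N) (τ₁ : EN N → ℂ × ℂ) (Φ₁ G₁ : ℂ × ℂ → EN N) (d₁ : ℕ) (σ₂ : ℂ × ℂ → EN N) (τ₂ : EN N → ℂ × ℂ) (Φ₂ G₂ : ℂ × ℂ → EN N) (d₂ : ℕ),
    MinusTwo X σ₁ τ₁ Φ₁ G₁ d₁ ∧ MinusTwo X σ₂ τ₂ Φ₂ G₂ d₂ ∧ Pr (σ₁ 0) x ∧ Pr (σ₂ 0) x ∧
      LinearIndependent ℂ ![x, fderiv ℂ σ₁ 0 (0, 1), fderiv ℂ σ₂ 0 (0, 1)]

/-- A surface with a section `Ω` of `m K - j H` whose zeros lie in the curve `zers P Q`; this curve is covered by rational curves and contains the rational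
curves of degree `d`, `j d ≤ μ`; at each of its points it is smooth and `Ω` vanishes to order at most `μ < m` (`SmoothPt`), or two curves with
self-intersection `-2` cross. -/
structure NegSurf (P : Ideal (MvPolynomial (Fin (N + 1)) ℂ)) (m j : ℕ) (Ω : EN N → EN N → EN N → ℂ) {κ : Type}
    (Q : κ → MvPolynomial (Fin (N + 1)) ℂ) (e μ : ℕ) : Prop where
  one_j : 1 ≤ j
  lt : μ < m
  pos : 1 ≤ e
  form : IsForm (coneE P) m j Ω
  hom : ∀ k, (Q k).IsHomogeneous e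
  noZeros : NoZeros (coneE P) (zers P Q) Ω
  loc : ∀ x ∈ zers P Q, SmoothPt P Ω Q μ x ∨ Crossing (coneE P) x
  cover : ∀ x ∈ zers P Q, ∃ (d : ℕ) (K K' : ℂ → EN N) (z : ℂ), 1 ≤ d ∧ RatCurve (coneE P) d K K' ∧ Pr (K z) x
  rat : ∀ (d : ℕ) (K K' : ℂ → EN N), 1 ≤ d → j * d ≤ μ → RatCurve (coneE P) d K K' → ∀ z, K z ∈ zers P Q

end Pool.Agent.SG2
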