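import Pool.Agent.SG2.Defs
import Pool.Agent.SG2.NegD
import Pool.Agent.H90.SG.Poly

/-!
# SG2 One: surfaces with negative curves, one form
-/

set_option autoImplicit false

open Topology Filter Metric MvPolynomial

noncomputable section

namespace Pool.Agent.SG2

open Pool.Agent.H36.BP (EN)
open Pool.Agent.H17BP (Pr Surface IsForm NoZeros IsChart)
open Pool.Agent.H22.W (PseudoLength)
open Pool.Agent.H17EF (coneE)
open Pool.Agent.H36.TB (oC)
open Pool.Agent.UC (RatC)
open Pool.Agent.SY (zer)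

variable {N : ℕ}

variable {P : Ideal (MvPolynomial (Fin (N + 1)) ℂ)} {m j : ℕ} {Ω : EN N → EN N → EN N → ℂ} {κ : Type} {Q : κ → MvPolynomial (Fin (N + 1)) ℂ}
  {e μ : ℕ}

theorem ratCurve_of {X : Set (EN N)} {d : ℕ} {K K' : ℂ → EN N} (h : RatC X d K K') : RatCurve X d K K' := ⟨h.diff, h.diff', h.mem, h.mem', h.rel⟩

theorem RatCurve.ratC {X : Set (EN N)} {d : ℕ} {K K' : ℂ → EN N} (h : RatCurve X d K K') : RatC X d K K' := ⟨h.diff, h.diff', h.mem, h.mem', h.rel⟩

/-- a form in the ideal vanishes on the cone -/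
theorem eval_of_mem {Q : MvPolynomial (Fin (N + 1)) ℂ} (hQ : Q ∈ P) {x : EN N} (hx : x ∈ coneE P) : eval x.ofLp Q = 0 :=
  hx.2 Q hQ

theorem NegSurf.formOff (h : NegSurf P m j Ω Q e μ) {k : κ} (hk : Q k ∉ P) : FormOff P m j Ω (Q k) e where
  one_m := lt_of_le_of_lt (Nat.zero_le _) h.lt
  one_j := h.one_j
  form := h.form
  hom := h.hom k
  pos := h.pos
  not_mem := hk
  noZeros := fun x hx hxT => h.noZeros x hx fun hx2 => hxT ⟨hx, hx2.2 k⟩

theorem NegSurf.trichotomy (h : NegSurf P m j Ω Q e μ) : ∀ x ∈ coneE P, Free P x ∨ SmoothNeg P x ∨ (x ∈ zers P Q ∧ Crossing (coneE P) x) := by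
  intro x hx
  by_cases hxz : ∀ k, eval x.ofLp (Q k) = 0
  · right
    rcases h.loc x ⟨hx, hxz⟩ with ⟨k, σ, τ, hσ, h0, ⟨R, hR, hR0, hred⟩, hdvd, hB⟩ | hC
    · left
      have hk : Q k ∉ P := by
        intro hk
        -- a point of the chart off the curve
        have h1 : ∀ᶠ p in 𝓝 (0 : ℂ × ℂ), p.1 = 0 := by
          filter_upwards [hred, hσ.σ_mem, hR.continuousAt.eventually_ne hR0] with p h2 h3 h4
          rw [eval_of_mem hk h3] at h2
          exact (mul_eq_zero.1 h2.symm).resolve_right h4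
        have h2 : Tendsto (fun z : ℂ => ((z, 0) : ℂ × ℂ)) (𝓝[≠] 0) (𝓝 0) := by
          have : Tendsto (fun z : ℂ => ((z, 0) : ℂ × ℂ)) (𝓝 0) (𝓝 (0, 0)) := (continuous_id.prodMk continuous_const).tendsto 0
          exact this.mono_left nhdsWithin_le_nhds
        obtain ⟨z, hz1, hz2⟩ := ((h2.eventually h1).and self_mem_nhdsWithin).exists
        exact hz2 hz1
      refine ⟨m, j, Ω, Q k, e, μ, σ, τ, ⟨h.formOff hk, hσ, ⟨R, hR, hR0, hred⟩, h.lt, hB, ?_, ?_⟩, h0⟩
      · -- the points near `x`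
        have h1 : ∀ᶠ y in 𝓝 (σ 0), y ∈ coneE P → ∃ c : ℂ, c ≠ 0 ∧ y = c • σ (τ y) := hσ.right
        have hτ : Tendsto τ (𝓝 (σ 0)) (𝓝 0) := by
          have := hσ.τ_an.continuousAt.tendsto
          rwa [hσ.left.self_of_nhds] at this
        filter_upwards [h1, hτ.eventually hred, hτ.eventually hdvd, hτ.eventually (hR.continuousAt.eventually_ne hR0)] with y g1 g2 g3 g4 hy
        obtain ⟨c, hc, g5⟩ := g1 hy.1
        suffices hs : ∀ i, eval y.ofLp (Q i) = 0 by
          obtain ⟨d, K, K', w, h1, h2, h3⟩ := h.cover y ⟨hy.1, hs⟩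
          exact ⟨d, K, K', w, h1, h2.ratC, h3⟩
        have g6 : eval (σ (τ y)).ofLp (Q k) = 0 := by
          have g7 := hy.2
          rw [g5, WithLp.ofLp_smul] at g7
          have g8 : eval (c • (σ (τ y)).ofLp) (Q k) = c ^ e * eval (σ (τ y)).ofLp (Q k) :=
            Pool.Agent.H17EF.eval_smul_form (h.hom k) c _
          rw [g8] at g7
          exact (mul_eq_zero.1 g7).resolve_left (pow_ne_zero _ hc)
        rw [g2] at g6
        have g7 : (τ y).1 = 0 := (mul_eq_zero.1 g6).resolve_right g4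
        intro i
        rw [g5, WithLp.ofLp_smul]
        have g8 : eval (c • (σ (τ y)).ofLp) (Q i) = c ^ e * eval (σ (τ y)).ofLp (Q i) :=
          Pool.Agent.H17EF.eval_smul_form (h.hom i) c _
        rw [g8, g3 g7 i, mul_zero]
      · intro d K K' hd hjd hK z
        exact (h.rat d K K' hd hjd (ratCurve_of hK) z).2 k
    · exact Or.inr ⟨⟨hx, hxz⟩, hC⟩
  · left
    push Not at hxz
    obtain ⟨k, hk⟩ := hxz
    exact ⟨m, j, Ω, Q k, e, h.formOff fun hkP => hk (eval_of_mem hkP hx), hk⟩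

end Pool.Agent.SG2
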