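import Pool.Agent.SG2.End2
import Pool.Agent.SG2.One
import Pool.Agent.SY.Fin
import Pool.Agent.SG.DuvE

/-!
# SG2 Fin2: the main theorem for surfaces with a section of `m K - j H` whose zeros lie in negative curves
-/

set_option autoImplicit false

open Topology Filter Metric MvPolynomial

noncomputable section

namespace Pool.Agent.SG2

open Pool.Agent.H17 (PN VanishesAt HolomorphicInto)
open Pool.Agent.H62.FC (Homog)
open Pool.Agent.H17LG.Variety (FunField)
open Pool.Agent.H13.OT (OrderTwo)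
open Pool.Agent.H13.SM (conTan)
open Pool.Agent.H17EF (projVar coneE)
open Pool.Agent.H36.BP (EN)
open Pool.Agent.AD (NullClass)
open Pool.Agent.AD.NC (IsSmooth IsOfLogGeneralType)
open Pool.Agent.SY (IsHyperbolicSurface NoBubblesAll)

variable {N : ℕ} {P : Ideal (MvPolynomial (Fin (N + 1)) ℂ)} {m j : ℕ} {Ω : EN N → EN N → EN N → ℂ} {κ : Type} {Q : κ → MvPolynomial (Fin (N + 1)) ℂ}
  {e μ : ℕ}

/-- a crossing point of two curves with self-intersection `-2` -/
theorem nullPt_of_crossing [P.IsPrime] {z : Fin 2 → FunField P} (hP : Homog P) (hz : IsTranscendenceBasis ℂ z)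
    (hsm : ∀ y : Fin (N + 1) → ℂ, y ≠ 0 → (∀ Q ∈ P, eval y Q = 0) → Module.finrank ℂ (conTan P y) ≤ 3) {x : EN N} (h : Crossing (coneE P) x) :
    NullPt P x := by
  have hS := Pool.Agent.H90.SG.surface_coneE hP hz hsm
  have hch := Pool.Agent.H17EF.charts (Pool.Agent.H13.SM.surface_cone hP hz fun y hy => hsm y hy.1 hy.2)
  obtain ⟨σ₁, τ₁, Φ₁, G₁, d₁, σ₂, τ₂, Φ₂, G₂, d₂, h1, h2, h3, h4, h5⟩ := h
  exact fun n v hv => Pool.Agent.SG.null_at_node (Pool.Agent.SG.isCone_of_surface hS) hS hch h1 h2 h3 h4 h5 n hv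

/-- no bubbles -/
theorem NegSurf.noBubblesAll [P.IsPrime] {z : Fin 2 → FunField P} (hP : Homog P) (hz : IsTranscendenceBasis ℂ z)
    (hsm : ∀ y : Fin (N + 1) → ℂ, y ≠ 0 → (∀ Q ∈ P, eval y Q = 0) → Module.finrank ℂ (conTan P y) ≤ 3)
    (h : NegSurf P m j Ω Q e μ) : NoBubblesAll P :=
  SG2.noBubblesAll hP hz hsm fun x hx => (h.trichotomy x hx).imp_right fun h1 => h1.imp_right fun h2 => nullPt_of_crossing hP hz hsm h2.2

/-- **SE.**  Surfaces with negative curves. -/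
theorem main_neg [P.IsPrime] (hP : Homog P) (hdim : ∃ z : Fin 2 → FunField P, IsTranscendenceBasis ℂ z) (hsmooth : IsSmooth P 2)
    (hgt : IsOfLogGeneralType P (Fin.elim0 : Fin 0 → MvPolynomial (Fin (N + 1)) ℂ) 2)
    (h : NegSurf P m j Ω Q e μ)
    (A : Set (ℂ → PN N)) (hA : NullClass P A) (R : MvPolynomial (Fin (N + 1)) ℂ) (d : ℕ) (hR : R.IsHomogeneous d) (hRP : R ∉ P)
    (hnull : ∀ f : ℂ → PN N, HolomorphicInto f Set.univ → OrderTwo f → (∀ z, f z ∈ projVar P) → (∃ z w, f z ≠ f w) → f ∈ A →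
      ∀ z, VanishesAt R (f z)) : IsHyperbolicSurface P := by
  obtain ⟨z, hz⟩ := id hdim
  have hsm : ∀ y : Fin (N + 1) → ℂ, y ≠ 0 → (∀ Q ∈ P, eval y Q = 0) → Module.finrank ℂ (conTan P y) ≤ 3 :=
    fun y h0 h1 => hsmooth y h0 h1
  have hc := Pool.Agent.SG.isCone_of_surface (Pool.Agent.H90.SG.surface_coneE hP hz hsm)
  exact Pool.Agent.SY.hyperbolic_of hP hdim hsmooth hgt (Pool.Agent.SY.stepBAll_of_noBubblesAll hc (h.noBubblesAll hP hz hsm)) A hA R d hR hRP hnull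

end Pool.Agent.SG2
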