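import Pool.Agent.H74.NB.Dec
import Pool.Agent.H36.TB.Co
import Pool.Agent.H90.SG.Order

/-!
# SG2 BubA: case (I), the families at a bubble and the order of the form

* `tlu_of_cc`: continuous convergence is locally uniform convergence.
* `order_le`: the exact order of the form in the normalised chart is at most `μ`.
* `deriv_ne`: the equation of the curve along `H` has a simple zero.
* `fam`: the families `L ∘ Φ n`, `Q ∘ Φ n`, `Φ n - L (Φ n) • G 0` and a zero `c n → 0` of the first one.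
-/

set_option autoImplicit false

open Topology Filter Metric

noncomputable section

namespace Pool.Agent.SG2

open Pool.Agent.H17BP (Surface IsForm IsChart Pr)
open Pool.Agent.H74.NB (CC Obj exists_zero)
open Pool.Agent.H36.TB (oC oC_le)

variable {V : Type} [NormedAddCommGroup V] [NormedSpace ℂ V]

theorem tlu_of_cc {𝒰 : Ultrafilter ℕ} {F : ℕ → ℂ → V} {f : ℂ → V} {U : Set ℂ} (hU : IsOpen U) (hf : ContinuousOn f U) (h : CC 𝒰 F f U) :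
    TendstoLocallyUniformlyOn F f 𝒰 U := by
  rw [tendstoLocallyUniformlyOn_iff_forall_isCompact hU]
  intro K hK hKc
  rw [Metric.tendstoUniformlyOn_iff]
  intro ε hε
  filter_upwards [h.unif hf hU hKc hK hε] with n hn z hz
  rw [dist_comm, dist_eq_norm]
  exact hn z hz

/-- The exact order `μ'` of the form is at most `μ`, if `Q ^ μ` is bounded by the form in some chart. -/
theorem order_le [FiniteDimensional ℂ V] {X : Set V} (hX : ∀ x ∈ X, ∀ c : ℂ, c ≠ 0 → c • x ∈ X) {m j : ℕ} {Ω : V → V → V → ℂ}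
    (hΩ : IsForm X m j Ω) {σ₀ σ : ℂ × ℂ → V} {τ₀ τ : V → ℂ × ℂ} (h₀ : IsChart X σ₀ τ₀) (h : IsChart X σ τ) {a : ℂ} (ha : a ≠ 0)
    (h0 : σ₀ 0 = a • σ 0) {L : V →L[ℂ] ℂ} (hL : L (σ 0) = 1) {Q : V → ℂ} {e : ℕ} (hτ : ∀ y, (τ y).1 = Q y / L y ^ e)
    (hτh : ∀ (c : ℂ) y, c ≠ 0 → τ (c • y) = τ y) {μ : ℕ} {B₀ : ℝ} (hlow : ∀ᶠ p in 𝓝 (0 : ℂ × ℂ), ‖Q (σ₀ p)‖ ^ μ ≤ B₀ * ‖oC Ω σ₀ p‖)
    {μ' : ℕ} {w : ℂ × ℂ → ℂ} (hw : ContinuousAt w 0) (hev : ∀ᶠ p in 𝓝 (0 : ℂ × ℂ), oC Ω σ p = p.1 ^ μ' * w p) : μ' ≤ μ := by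
  by_contra hcon
  push Not at hcon
  obtain ⟨B₁, hB₁, hle⟩ := oC_le hX hΩ h ha h₀.σ_an h₀.σ_mem h0
  -- the curve
  have hline : Tendsto (fun s : ℂ => ((s, (0 : ℂ)) : ℂ × ℂ)) (𝓝 0) (𝓝 0) := by
    have : Continuous fun s : ℂ => ((s, (0 : ℂ)) : ℂ × ℂ) := by fun_prop
    exact this.tendsto 0
  have hγ : Tendsto (fun s : ℂ => a • σ (s, 0)) (𝓝 0) (𝓝 (σ₀ 0)) := by
    rw [h0]
    exact (h.σ_an.continuousAt.tendsto.comp hline).const_smul a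
  have hp : Tendsto (fun s : ℂ => τ₀ (a • σ (s, 0))) (𝓝 0) (𝓝 0) := by
    have h1 := h₀.τ_an.continuousAt.tendsto
    rw [h₀.left.self_of_nhds] at h1
    exact h1.comp hγ
  have hL0 : L (σ₀ 0) = a := by rw [h0, map_smul, hL, smul_eq_mul, mul_one]
  have hLc : Tendsto (fun s : ℂ => ‖L (σ₀ (τ₀ (a • σ (s, 0))))‖) (𝓝 0) (𝓝 ‖a‖) := by
    have h1 : Tendsto (fun p => ‖L (σ₀ p)‖) (𝓝 0) (𝓝 ‖a‖) := by
      rw [← hL0]
      exact ((L.continuous.tendsto _).comp h₀.σ_an.continuousAt.tendsto).norm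
    exact h1.comp hp
  have han : 0 < ‖a‖ := norm_pos_iff.2 ha
  have hwc : Tendsto (fun s : ℂ => ‖w (s, 0)‖) (𝓝 0) (𝓝 ‖w 0‖) := (hw.norm.tendsto).comp hline
  have key : ∀ᶠ s in 𝓝 (0 : ℂ), ((‖a‖ / 2) ^ e * ‖s‖) ^ μ ≤ |B₀| * B₁ * (‖s‖ ^ μ' * (‖w 0‖ + 1)) := by
    filter_upwards [hp.eventually hlow, hp.eventually hle, hline.eventually hev, hline.eventually h.left, hline.eventually h.σ_mem,
      hγ.eventually h₀.right, hLc.eventually (lt_mem_nhds (show ‖a‖ / 2 < ‖a‖ by linarith)),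
      hwc.eventually (gt_mem_nhds (show ‖w 0‖ < ‖w 0‖ + 1 by linarith))] with s h1 h2 h3 h4 h5 h6 h7 h8
    obtain ⟨c, hc, h9⟩ := h6 (hX _ h5 _ ha)
    obtain ⟨y, hy⟩ : ∃ y, y = σ₀ (τ₀ (a • σ (s, 0))) := ⟨_, rfl⟩
    rw [← hy] at h1 h2 h7 h9
    have h10 : y = c⁻¹ • (a • σ (s, 0)) := by rw [h9, smul_smul, inv_mul_cancel₀ hc, one_smul]
    have h11 : τ y = (s, 0) := by
      rw [h10, hτh _ _ (inv_ne_zero hc), hτh _ _ ha, h4]
    have h12 : τ (a⁻¹ • y) = (s, 0) := by rw [hτh _ _ (inv_ne_zero ha), h11]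
    rw [h12, h3] at h2
    have hLy : L y ≠ 0 := by
      intro h13
      rw [h13, norm_zero] at h7
      linarith
    have h13 : Q y = s * L y ^ e := by
      have h14 := hτ y
      rw [h11] at h14
      rw [show s = Q y / L y ^ e from h14, div_mul_cancel₀ _ (pow_ne_zero _ hLy)]
    rw [h13] at h1
    calc ((‖a‖ / 2) ^ e * ‖s‖) ^ μ ≤ ‖s * L y ^ e‖ ^ μ := by
          refine pow_le_pow_left₀ (by positivity) ?_ _
          rw [norm_mul, norm_pow, mul_comm]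
          exact mul_le_mul_of_nonneg_left (pow_le_pow_left₀ (by positivity) h7.le _) (norm_nonneg _)
      _ ≤ B₀ * ‖oC Ω σ₀ (τ₀ (a • σ (s, 0)))‖ := h1
      _ ≤ |B₀| * ‖oC Ω σ₀ (τ₀ (a • σ (s, 0)))‖ := mul_le_mul_of_nonneg_right (le_abs_self _) (norm_nonneg _)
      _ ≤ |B₀| * (B₁ * ‖s ^ μ' * w (s, 0)‖) := mul_le_mul_of_nonneg_left h2 (abs_nonneg _)
      _ = |B₀| * B₁ * (‖s‖ ^ μ' * ‖w (s, 0)‖) := by rw [norm_mul, norm_pow]; ring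
      _ ≤ |B₀| * B₁ * (‖s‖ ^ μ' * (‖w 0‖ + 1)) := by gcongr
  obtain ⟨d, hd⟩ : ∃ d, μ' = μ + (d + 1) := ⟨μ' - μ - 1, by omega⟩
  have h1 : Tendsto (fun s : ℂ => |B₀| * B₁ * (‖s‖ ^ (d + 1) * (‖w 0‖ + 1))) (𝓝 0) (𝓝 0) := by
    have : Continuous fun s : ℂ => |B₀| * B₁ * (‖s‖ ^ (d + 1) * (‖w 0‖ + 1)) := by fun_prop
    simpa using this.tendsto 0
  have h2 : 0 < ((‖a‖ / 2) ^ e) ^ μ := by positivity
  have h3 : ∀ᶠ s in 𝓝[≠] (0 : ℂ), ((‖a‖ / 2) ^ e) ^ μ ≤ |B₀| * B₁ * (‖s‖ ^ (d + 1) * (‖w 0‖ + 1)) := by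
    filter_upwards [key.filter_mono nhdsWithin_le_nhds, self_mem_nhdsWithin] with s hs hs0
    have hs1 : 0 < ‖s‖ ^ μ := pow_pos (norm_pos_iff.2 hs0) _
    rw [hd, mul_pow, pow_add] at hs
    refine le_of_mul_le_mul_right ?_ hs1
    calc ((‖a‖ / 2) ^ e) ^ μ * ‖s‖ ^ μ ≤ _ := hs
      _ = _ := by ring
  have h4 := ge_of_tendsto (h1.mono_left nhdsWithin_le_nhds) h3
  linarith

/-- the equation of the curve has a simple zero along a transversal curve -/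
theorem deriv_ne {X : Set V} {σ₀ : ℂ × ℂ → V} {τ₀ : V → ℂ × ℂ} (h₀ : IsChart X σ₀ τ₀) {L : V →L[ℂ] ℂ} (hL : L (σ₀ 0) ≠ 0) {Q : V → ℂ} {e : ℕ}
    (hQs : ∀ (c : ℂ) y, Q (c • y) = c ^ e * Q y) {R : ℂ × ℂ → ℂ} (hR : AnalyticAt ℂ R 0) (hR0 : R 0 ≠ 0)
    (hred : ∀ᶠ p in 𝓝 (0 : ℂ × ℂ), Q (σ₀ p) = p.1 * R p) {H : ℂ → V} (hH : AnalyticAt ℂ H 0) (hHX : ∀ᶠ z in 𝓝 (0 : ℂ), H z ∈ X)
    (h0 : σ₀ 0 = H 0) (htr : (deriv (fun z => τ₀ (H z)) 0).1 ≠ 0) : ∃ q : ℂ, q ≠ 0 ∧ HasDerivAt (fun z => Q (H z)) q 0 := by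
  have ht0 : τ₀ (H 0) = 0 := by
    rw [← h0]
    exact h₀.left.self_of_nhds
  have hτH : AnalyticAt ℂ (fun z => τ₀ (H z)) 0 := by
    have h1 : AnalyticAt ℂ τ₀ (H 0) := by rw [← h0]; exact h₀.τ_an
    exact h1.comp hH
  have hτt : Tendsto (fun z => τ₀ (H z)) (𝓝 0) (𝓝 0) := by
    have := hτH.continuousAt.tendsto
    rwa [ht0] at this
  have hHt : Tendsto H (𝓝 0) (𝓝 (σ₀ 0)) := by
    rw [h0]
    exact hH.continuousAt.tendsto
  have hσH : AnalyticAt ℂ (fun z => σ₀ (τ₀ (H z))) 0 := by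
    have h1 : AnalyticAt ℂ σ₀ (τ₀ (H 0)) := by rw [ht0]; exact h₀.σ_an
    exact AnalyticAt.comp (g := σ₀) (f := fun z => τ₀ (H z)) h1 hτH
  have hRH : AnalyticAt ℂ (fun z => R (τ₀ (H z))) 0 := by
    have h1 : AnalyticAt ℂ R (τ₀ (H 0)) := by rw [ht0]; exact hR
    exact AnalyticAt.comp (g := R) (f := fun z => τ₀ (H z)) h1 hτH
  have hLH : AnalyticAt ℂ (fun z => L (H z)) 0 := (L.analyticAt _).comp hH
  have hLσ : AnalyticAt ℂ (fun z => L (σ₀ (τ₀ (H z)))) 0 := (L.analyticAt _).comp hσH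
  have hLσ0 : L (σ₀ (τ₀ (H 0))) ≠ 0 := by rw [ht0]; exact hL
  have hq : AnalyticAt ℂ (fun z => (L (H z) / L (σ₀ (τ₀ (H z)))) ^ e * R (τ₀ (H z))) 0 := ((hLH.div hLσ hLσ0).pow e).mul hRH
  have hd1 : HasDerivAt (fun z => (τ₀ (H z)).1) (deriv (fun z => τ₀ (H z)) 0).1 0 :=
    (ContinuousLinearMap.fst ℂ ℂ ℂ).hasFDerivAt.comp_hasDerivAt (0 : ℂ) hτH.differentiableAt.hasDerivAt
  have hd2 := hd1.mul hq.differentiableAt.hasDerivAt
  have e1 : (τ₀ (H 0)).1 = 0 := by rw [ht0]; rfl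
  have e2 : (L (H 0) / L (σ₀ (τ₀ (H 0)))) ^ e * R (τ₀ (H 0)) = R 0 := by
    rw [ht0, h0, div_self, one_pow, one_mul]
    rw [← h0]
    exact hL
  refine ⟨(deriv (fun z => τ₀ (H z)) 0).1 * R 0, mul_ne_zero htr hR0, ?_⟩
  have hd3 : HasDerivAt (fun z => (τ₀ (H z)).1 * ((L (H z) / L (σ₀ (τ₀ (H z)))) ^ e * R (τ₀ (H z))))
      ((deriv (fun z => τ₀ (H z)) 0).1 * R 0) 0 := by
    have h2 := hd2
    rw [e1, zero_mul, add_zero, e2] at h2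
    exact h2
  refine hd3.congr_of_eventuallyEq ?_
  filter_upwards [hHt.eventually h₀.right, hHX, hτt.eventually hred, hLσ.continuousAt.eventually_ne hLσ0] with z h1 h2 h3 h4
  obtain ⟨c, hc, h5⟩ := h1 h2
  have h6 : L (H z) / L (σ₀ (τ₀ (H z))) = c := by
    rw [div_eq_iff h4]
    conv_lhs => rw [h5]
    rw [map_smul, smul_eq_mul]
  rw [h6]
  conv_lhs => rw [h5]
  rw [hQs, h3]
  ring

/-- The families at a bubble. -/
theorem fam {𝒰 : Ultrafilter ℕ} {Φ : ℕ → ℂ → V} {G : ℂ → V} {r : ℝ} {M : ℕ} (hobj : Obj 𝒰 Φ 0 M G r) (hM : 1 ≤ M) {L : V →L[ℂ] ℂ}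
    (hL : L (G 0) = 1) {Q : V → ℂ} {e : ℕ} (hQa : ∀ y, AnalyticAt ℂ Q y) (hQs : ∀ (c : ℂ) y, Q (c • y) = c ^ e * Q y) (hQ0 : Q (G 0) = 0)
    (hQ1 : HasDerivAt (fun z => Q (G z)) 1 0) :
    ∃ KB : ℂ → ℂ, DifferentiableOn ℂ KB (ball 0 r) ∧ KB 0 = 1 ∧
      (∀ᶠ n in (𝒰 : Filter ℕ), DifferentiableOn ℂ (fun z => L (Φ n z)) (ball 0 r)) ∧
      (∀ᶠ n in (𝒰 : Filter ℕ), DifferentiableOn ℂ (fun z => Q (Φ n z)) (ball 0 r)) ∧
      (∀ᶠ n in (𝒰 : Filter ℕ), DifferentiableOn ℂ (fun z => Φ n z - L (Φ n z) • G 0) (ball 0 r)) ∧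
      CC 𝒰 (fun n z => L (Φ n z)) (fun z => z ^ M * L (G z)) (ball 0 r) ∧
      CC 𝒰 (fun n z => Q (Φ n z)) (fun z => z ^ (e * M + 1) * KB z) (ball 0 r) ∧
      CC 𝒰 (fun n z => Φ n z - L (Φ n z) • G 0) (fun z => z ^ M • (G z - L (G z) • G 0)) (ball 0 r) ∧
      ∃ c : ℕ → ℂ, Tendsto c 𝒰 (𝓝 0) ∧ (∀ᶠ n in (𝒰 : Filter ℕ), L (Φ n (c n)) = 0) ∧
        ∀ᶠ n in (𝒰 : Filter ℕ), Φ n (c n) - L (Φ n (c n)) • G 0 ≠ 0 := by
  have h00 : (0 : ℂ) ∈ ball (0 : ℂ) r := mem_ball_self hobj.pos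
  have hnr : ball (0 : ℂ) r ∈ 𝓝 (0 : ℂ) := ball_mem_nhds _ hobj.pos
  have hQd : Differentiable ℂ Q := fun y => (hQa y).differentiableAt
  have hQG : DifferentiableOn ℂ (fun z => Q (G z)) (ball 0 r) := hQd.comp_differentiableOn hobj.holG
  have hLG : DifferentiableOn ℂ (fun z => L (G z)) (ball 0 r) := L.differentiable.comp_differentiableOn hobj.holG
  have hKB : DifferentiableOn ℂ (dslope (fun z => Q (G z)) 0) (ball 0 r) := (Complex.differentiableOn_dslope hnr).2 hQG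
  have hA : ∀ᶠ n in (𝒰 : Filter ℕ), DifferentiableOn ℂ (fun z => L (Φ n z)) (ball 0 r) :=
    hobj.hol.mono fun n hn => L.differentiable.comp_differentiableOn hn
  have hccA : CC 𝒰 (fun n z => L (Φ n z)) (fun z => z ^ M * L (G z)) (ball 0 r) := by
    intro z₀ hz₀ z hz
    have h1 := (L.continuous.tendsto _).comp (hobj.cc z₀ hz₀ z hz)
    simp only [sub_zero, map_smul, smul_eq_mul] at h1
    exact h1
  refine ⟨dslope (fun z => Q (G z)) 0, hKB, ?_, hA, ?_, ?_, hccA, ?_, ?_, ?_⟩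
  · rw [dslope_same]
    exact hQ1.deriv
  · exact hobj.hol.mono fun n hn => hQd.comp_differentiableOn hn
  · filter_upwards [hobj.hol, hA] with n h1 h2
    exact h1.sub (h2.smul_const _)
  · intro z₀ hz₀ z hz
    have h1 := (hQd.continuous.tendsto _).comp (hobj.cc z₀ hz₀ z hz)
    have h2 : Q ((z₀ - 0) ^ M • G z₀) = z₀ ^ (e * M + 1) * dslope (fun z => Q (G z)) 0 z₀ := by
      have h3 : z₀ * dslope (fun z => Q (G z)) 0 z₀ = Q (G z₀) := by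
        have h4 := sub_smul_dslope (fun z => Q (G z)) 0 z₀
        rw [hQ0, sub_zero, sub_zero, smul_eq_mul] at h4
        exact h4
      rw [hQs, sub_zero, pow_succ, mul_assoc, h3, ← pow_mul, mul_comm M e]
    simp only [] at h1
    rw [h2] at h1
    exact h1
  · intro z₀ hz₀ z hz
    have h1 := hobj.cc z₀ hz₀ z hz
    have h2 := hccA z₀ hz₀ z hz
    have h3 := h1.sub (h2.smul_const (G 0))
    have h4 : (z₀ - 0) ^ M • G z₀ - (z₀ ^ M * L (G z₀)) • G 0 = z₀ ^ M • (G z₀ - L (G z₀) • G 0) := by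
      rw [sub_zero, smul_sub, smul_smul]
    rw [h4] at h3
    exact h3
  · have hd : DifferentiableOn ℂ (fun z => z ^ M * L (G z)) (ball 0 r) := (differentiableOn_id.pow M).mul hLG
    obtain ⟨c, hc, hc0⟩ := exists_zero hobj.pos hA hd hccA (by simp [show M ≠ 0 by omega]) (by
      have h1 : ∀ᶠ z in 𝓝[≠] (0 : ℂ), z ^ M * L (G z) ≠ 0 := by
        have h2 : ContinuousAt (fun z => L (G z)) 0 := (hLG.differentiableAt hnr).continuousAt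
        have h3 : L (G 0) ≠ 0 := by rw [hL]; exact one_ne_zero
        filter_upwards [(h2.eventually_ne h3).filter_mono nhdsWithin_le_nhds, self_mem_nhdsWithin] with z h4 h5
        exact mul_ne_zero (pow_ne_zero _ h5) h4
      exact h1.frequently.filter_mono nhdsWithin_le_nhds)
    refine ⟨c, hc, hc0, ?_⟩
    filter_upwards [hc0, hobj.nz, hc.eventually hnr] with n h1 h2 h3
    rw [h1, zero_smul, sub_zero]
    exact h2 _ h3

end Pool.Agent.SG2
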