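import Pool.Agent.SG2.BubA
import Pool.Agent.SG.NCore
import Pool.Agent.SG.BuM
import Pool.Agent.SG.NChN
import Pool.Agent.H90.SG.HasUI
import Pool.Agent.H90.SG.CoNe
import Pool.Agent.SY.BdN

/-!
# SG2 BubI: case (I), no bubbles at a smooth point of the curve `T = {Q = 0}` along which the form vanishes to order `< m`

`Φ n → z ^ M • G z`, the curve `G` is transversal to `{Q = 0}` at `G 0`, the rational curves of degree `≤ M` lie in `T`.  The weighted energy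
`g (Φ n) * pn (Φ n) ^ (-(θ j / (m D₁)))` satisfies the maximum principle (`maxU`, with the local bound `bound_near_obj`) and the two-sided bound `box_near`:
`core_I` applies, with `a = μ' / m < 1`, `b = θ j / m`, `θ = 1 / 2`.
-/

set_option autoImplicit false

open Topology Filter Metric

noncomputable section

namespace Pool.Agent.SG2

open Pool.Agent.H36.BP (EN)
open Pool.Agent.H14.PP (IsCone)
open Pool.Agent.H17BP (Surface IsChart IsForm NoZeros Pr)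
open Pool.Agent.H74.NB (CC Obj)
open Pool.Agent.H36.TB (oC EnergyB)
open Pool.Agent.H90.SG (TBNear exists_energy_near exists_order oC_ne)
open Pool.Agent.UC (RatC)
open Pool.Agent.SY (Ent Energy ModelS bound_near_obj)
open Pool.Agent.SG (exists_chart_norm box_near maxU core_I)

variable {N : ℕ}

/-- **Case (I)**, in terms of the limit `Φ n → z ^ M • G z`. -/
theorem bub_I {X T : Set (EN N)} (hc : IsCone X) {m j : ℕ} {Ω : EN N → EN N → EN N → ℂ} {κ : Type} [Fintype κ] {Qs : κ → EN N → ℂ} {D : ℕ}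
    (hS : ModelS X T m j Ω Qs D) {𝒰 : Ultrafilter ℕ} {Φ : ℕ → ℂ → EN N} {G : ℂ → EN N} {r : ℝ} {M : ℕ} (hobj : Obj 𝒰 Φ 0 M G r) (hM : 1 ≤ M)
    (hΦ : ∀ᶠ n in (𝒰 : Filter ℕ), Differentiable ℂ (Φ n) ∧ ∀ z, Φ n z ∈ X)
    {Q : EN N → ℂ} {e : ℕ} (hQa : ∀ y, AnalyticAt ℂ Q y) (hQs : ∀ (c : ℂ) y, Q (c • y) = c ^ e * Q y)
    (hTQ : ∀ y ∈ X, (y ∈ T ↔ Q y = 0)) {q : ℂ} (hq : q ≠ 0) (hQ1 : HasDerivAt (fun z => Q (G z)) q 0)
    {σ₀ : ℂ × ℂ → EN N} {τ₀ : EN N → ℂ × ℂ} (h₀ : IsChart X σ₀ τ₀) {a : ℂ} (ha : a ≠ 0) (h0 : σ₀ 0 = a • G 0)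
    {R : ℂ × ℂ → ℂ} (hR : AnalyticAt ℂ R 0) (hR0 : R 0 ≠ 0) (hred : ∀ᶠ p in 𝓝 (0 : ℂ × ℂ), Q (σ₀ p) = p.1 * R p) {μ : ℕ} (hμ : μ < m)
    (hlow : ∃ B : ℝ, ∀ᶠ p in 𝓝 (0 : ℂ × ℂ), ‖p.1‖ ^ μ ≤ B * ‖oC Ω σ₀ p‖)
    (hrat : ∀ (d : ℕ) (K K' : ℂ → EN N), 1 ≤ d → d ≤ M → RatC X d K K' → ∀ z, K z ∈ T) : False := by
  have hX := hS.surf
  have hΩ := hS.form
  have hm := hS.one_m
  have hj := hS.one_j
  have hTX : T ⊆ X := fun y hy => ((hS.eqs.mem_iff y).1 hy).1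
  have hTs := hS.eqs.cone hX.smul
  have hG0 : G 0 ≠ 0 := hobj.nzG
  have hai : a⁻¹ ≠ 0 := inv_ne_zero ha
  have hGX : G 0 ∈ X := by
    have h1 : G 0 = a⁻¹ • σ₀ 0 := by rw [h0, smul_smul, inv_mul_cancel₀ ha, one_smul]
    rw [h1]
    exact hX.smul _ h₀.σ_mem.self_of_nhds _ hai
  obtain ⟨L, hL⟩ : ∃ L : EN N →L[ℂ] ℂ, L (G 0) = 1 := by
    obtain ⟨Λ, h1⟩ := exists_dual_vector ℂ (G 0) (norm_ne_zero_iff.mpr hG0)
    have h2 : Λ (G 0) ≠ 0 := by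
      rw [h1.2]
      simpa using hG0
    exact ⟨(Λ (G 0))⁻¹ • Λ, by
      rw [smul_apply, smul_eq_mul, inv_mul_cancel₀ h2]⟩
  -- the normalised equation
  have hQG0 : Q (G 0) = 0 := by
    have h1 : Q (σ₀ 0) = 0 := by
      have := hred.self_of_nhds
      rw [this]
      simp
    rw [h0, hQs] at h1
    exact (mul_eq_zero.1 h1).resolve_left (pow_ne_zero _ ha)
  obtain ⟨Q₁, hQ₁⟩ : ∃ Q₁ : EN N → ℂ, ∀ y, Q₁ y = q⁻¹ * Q y := ⟨_, fun _ => rfl⟩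
  have hQ₁e : Q₁ = fun y => q⁻¹ * Q y := funext hQ₁
  have hQa₁ : ∀ y, AnalyticAt ℂ Q₁ y := fun y => by
    rw [hQ₁e]
    exact analyticAt_const.mul (hQa y)
  have hQs₁ : ∀ (c : ℂ) y, Q₁ (c • y) = c ^ e * Q₁ y := fun c y => by
    rw [hQ₁, hQ₁, hQs]
    ring
  have hQ₁0 : Q₁ (G 0) = 0 := by rw [hQ₁, hQG0, mul_zero]
  have hQ₁1 : HasDerivAt (fun z => Q₁ (G z)) 1 0 := by
    have h1 := hQ1.const_mul q⁻¹
    rw [inv_mul_cancel₀ hq] at h1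
    rw [hQ₁e]
    exact h1
  have hzero : ∀ y, Q₁ y = 0 ↔ Q y = 0 := fun y => by
    rw [hQ₁, mul_eq_zero]
    exact or_iff_right (inv_ne_zero hq)
  -- the normalised chart
  have h₀' := h₀.scale hX.smul hai
  have hs0 : a⁻¹ • σ₀ 0 = G 0 := by rw [h0, smul_smul, inv_mul_cancel₀ ha, one_smul]
  have hd₀ : fderiv ℂ (fun p => Q₁ (a⁻¹ • σ₀ p)) 0 ≠ 0 := by
    have h1 : HasFDerivAt (fun p : ℂ × ℂ => p.1 * R p) ((0 : ℂ × ℂ).1 • fderiv ℂ R 0 + R 0 • ContinuousLinearMap.fst ℂ ℂ ℂ) 0 :=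
      hasFDerivAt_fst.mul hR.differentiableAt.hasFDerivAt
    have h2 : HasFDerivAt (fun p : ℂ × ℂ => Q₁ (a⁻¹ • σ₀ p))
        ((q⁻¹ * a⁻¹ ^ e) • ((0 : ℂ × ℂ).1 • fderiv ℂ R 0 + R 0 • ContinuousLinearMap.fst ℂ ℂ ℂ)) 0 := by
      refine (h1.const_smul (q⁻¹ * a⁻¹ ^ e)).congr_of_eventuallyEq ?_
      filter_upwards [hred] with p hp
      rw [hQs₁, hQ₁, hp]
      show a⁻¹ ^ e * (q⁻¹ * (p.1 * R p)) = (q⁻¹ * a⁻¹ ^ e) * (p.1 * R p)
      ring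
    rw [h2.fderiv]
    intro h3
    have h4 := DFunLike.congr_fun h3 (1, 0)
    simp at h4
    rcases h4 with (h4 | h4) | h4
    · exact hq h4
    · exact ha h4.1
    · exact hR0 h4
  obtain ⟨σ, τ, hσ, hσ0, hLσ, hτ, hτh⟩ := exists_chart_norm hX.smul h₀' (L := L) (by rw [hs0]; exact hL) (Q := Q₁) (e := e) (hQa₁ _) hQs₁
    (by rw [hs0]; exact hQ₁0) hd₀
  have hσG : σ 0 = G 0 := hσ0.trans hs0
  have hQσ : ∀ᶠ p in 𝓝 (0 : ℂ × ℂ), Q₁ (σ p) = p.1 := by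
    filter_upwards [hσ.left, hLσ] with p h1 h2
    have h3 := hτ (σ p)
    rw [h1, h2, one_pow, div_one] at h3
    exact h3.symm
  have hT : ∀ᶠ p in 𝓝 (0 : ℂ × ℂ), (σ p ∈ T ↔ p.1 = 0) := by
    filter_upwards [hQσ, hσ.σ_mem] with p h1 h2
    rw [hTQ _ h2, ← hzero, h1]
  -- the energy
  obtain ⟨ME, c₀, C, k, g, pn, D₁, -, hk0, -, hk4, E, htb⟩ := exists_energy_near hS hσ hT (θ := 1 / 2) (κ₁ := 1) (by norm_num) (by norm_num)
    one_pos (ContinuousLinearEquiv.refl ℂ (EN N))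
  -- the order of the form
  obtain ⟨μ', w, hw, hw0, hwev⟩ := exists_order (hΩ.analytic σ 0 hσ.σ_an hσ.σ_mem) (by
    filter_upwards [oC_ne hS.noZeros hσ, hT] with p h1 h2 h3
    exact h1 fun h4 => h3 (h2.1 h4))
  have hμ' : μ' ≤ μ := by
    obtain ⟨B, hB⟩ := hlow
    have hRn : ∀ᶠ p in 𝓝 (0 : ℂ × ℂ), ‖R p‖ < ‖R 0‖ + 1 := hR.continuousAt.norm.eventually (gt_mem_nhds (by linarith))
    refine order_le (Q := Q₁) (e := e) (B₀ := (‖q⁻¹‖ * (‖R 0‖ + 1)) ^ μ * B) hX.smul hΩ h₀ hσ ha (by rw [hσG, h0]) (by rw [hσG]; exact hL) hτ hτh ?_ hw.continuousAt hwev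
    filter_upwards [hB, hRn, hred] with p h1 h2 h3
    rw [hQ₁, h3]
    calc ‖q⁻¹ * (p.1 * R p)‖ ^ μ = (‖q⁻¹‖ * ‖R p‖) ^ μ * ‖p.1‖ ^ μ := by
          rw [norm_mul, norm_mul, ← mul_pow]
          ring
      _ ≤ (‖q⁻¹‖ * (‖R 0‖ + 1)) ^ μ * (B * ‖oC Ω σ₀ p‖) := by gcongr
      _ = (‖q⁻¹‖ * (‖R 0‖ + 1)) ^ μ * B * ‖oC Ω σ₀ p‖ := by ring
  have hord : ∃ B : ℝ, 1 ≤ B ∧ ∀ᶠ p in 𝓝 (0 : ℂ × ℂ), ‖p.1‖ ^ μ' ≤ B * ‖oC Ω σ p‖ ∧ ‖oC Ω σ p‖ ≤ B * ‖p.1‖ ^ μ' := by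
    have hn : 0 < ‖w 0‖ := norm_pos_iff.2 hw0
    have h1 : ∀ᶠ p in 𝓝 (0 : ℂ × ℂ), ‖w p‖ < 2 * ‖w 0‖ := hw.continuousAt.norm.eventually (gt_mem_nhds (by linarith))
    have h2 : ∀ᶠ p in 𝓝 (0 : ℂ × ℂ), ‖w 0‖ / 2 < ‖w p‖ := hw.continuousAt.norm.eventually (lt_mem_nhds (by linarith))
    refine ⟨max 1 (max (2 * ‖w 0‖) (2 / ‖w 0‖)), le_max_left _ _, ?_⟩
    filter_upwards [h1, h2, hwev] with p h3 h4 h5
    have h6 : oC Ω σ p = p.1 ^ μ' * w p := h5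
    rw [h6, norm_mul, norm_pow]
    have h7 : 0 ≤ ‖p.1‖ ^ μ' := by positivity
    constructor
    · have h8 : 1 ≤ 2 / ‖w 0‖ * ‖w p‖ := by
        rw [div_mul_eq_mul_div, le_div_iff₀ hn]
        linarith
      calc ‖p.1‖ ^ μ' ≤ ‖p.1‖ ^ μ' * (2 / ‖w 0‖ * ‖w p‖) := le_mul_of_one_le_right h7 h8
        _ = 2 / ‖w 0‖ * (‖p.1‖ ^ μ' * ‖w p‖) := by ring
        _ ≤ max 1 (max (2 * ‖w 0‖) (2 / ‖w 0‖)) * (‖p.1‖ ^ μ' * ‖w p‖) :=
            mul_le_mul_of_nonneg_right ((le_max_right _ _).trans (le_max_right _ _)) (by positivity)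
    · calc ‖p.1‖ ^ μ' * ‖w p‖ ≤ ‖p.1‖ ^ μ' * (2 * ‖w 0‖) := mul_le_mul_of_nonneg_left h3.le h7
        _ = 2 * ‖w 0‖ * ‖p.1‖ ^ μ' := by ring
        _ ≤ max 1 (max (2 * ‖w 0‖) (2 / ‖w 0‖)) * ‖p.1‖ ^ μ' :=
            mul_le_mul_of_nonneg_right ((le_max_left _ _).trans (le_max_right _ _)) h7
  -- the families
  obtain ⟨KB, hKB, hKB0, fA, fB, fv, cA, cB, cv, c, hc0, hcA, hcv⟩ := fam hobj hM hL hQa₁ hQs₁ hQ₁0 hQ₁1
  have hnr : ball (0 : ℂ) r ∈ 𝓝 (0 : ℂ) := ball_mem_nhds _ hobj.pos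
  have hLG : DifferentiableOn ℂ (fun z => L (G z)) (ball 0 r) := L.differentiable.comp_differentiableOn hobj.holG
  have hKV : DifferentiableOn ℂ (fun z => G z - L (G z) • G 0) (ball 0 r) := hobj.holG.sub (hLG.smul_const _)
  -- the curves are not in `T`
  have hEnt : ∀ᶠ n in (𝒰 : Filter ℕ), Ent X T (Φ n) := by
    obtain ⟨z, ⟨hz1, hz2⟩, hz3⟩ : ∃ z : ℂ, (z ∈ ball (0 : ℂ) r ∧ KB z ≠ 0) ∧ z ≠ 0 := by
      have h1 : ∀ᶠ z in 𝓝[≠] (0 : ℂ), z ∈ ball (0 : ℂ) r := mem_nhdsWithin_of_mem_nhds hnr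
      have h2 : ∀ᶠ z in 𝓝[≠] (0 : ℂ), KB z ≠ 0 :=
        ((hKB.differentiableAt hnr).continuousAt.eventually_ne (by rw [hKB0]; exact one_ne_zero)).filter_mono nhdsWithin_le_nhds
      exact ((h1.and h2).and self_mem_nhdsWithin).exists
    have h3 := cB z hz1 (fun _ => z) tendsto_const_nhds
    filter_upwards [h3.eventually_ne (mul_ne_zero (pow_ne_zero _ hz3) hz2), hΦ] with n h4 h5
    refine ⟨h5.1, h5.2, z, fun h6 => h4 ?_⟩
    rw [hzero]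
    exact (hTQ _ (h5.2 z)).1 h6
  -- the local bound of the energy
  obtain ⟨s, A, hs, hsr, hA⟩ := bound_near_obj hc hTs E.toEnergy hEnt hobj (Eventually.of_forall fun n z _ => ⟨1, one_ne_zero, (one_smul _ _).symm⟩) hrat
  obtain ⟨ε₀, B₀, hε₀, hB₀, hbox⟩ := box_near hX hTX hm E hσ htb hLσ hτ hτh hord
  have hm0 : (0 : ℝ) < m := by exact_mod_cast hm
  have hj0 : (0 : ℝ) < j := by exact_mod_cast hj
  have hmu : ((μ' : ℝ)) < m := by exact_mod_cast lt_of_le_of_lt hμ' hμ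
  have hcon1 : ContinuousOn (fun z => z ^ M * L (G z)) (ball 0 r) := ((continuous_id.pow M).continuousOn).mul hLG.continuousOn
  have hcon2 : ContinuousOn (fun z => z ^ (e * M + 1) * KB z) (ball 0 r) := ((continuous_id.pow _).continuousOn).mul hKB.continuousOn
  have hcon3 : ContinuousOn (fun z => z ^ M • (G z - L (G z) • G 0)) (ball 0 r) := ((continuous_id.pow M).continuousOn).smul hKV.continuousOn
  have hτ00 : τ (G 0) = 0 := by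
    rw [← hσG]
    exact hσ.left.self_of_nhds
  refine core_I 𝒰 hobj.pos hM (A := fun n z => L (Φ n z)) (B := fun n z => Q₁ (Φ n z)) (v := fun n z => Φ n z - L (Φ n z) • G 0)
    (KA := fun z => L (G z)) (KB := KB) (KV := fun z => G z - L (G z) • G 0) (e := e) fA fB fv hLG hKB hKV (tlu_of_cc isOpen_ball hcon1 cA)
    (tlu_of_cc isOpen_ball hcon2 cB) (tlu_of_cc isOpen_ball hcon3 cv) hL hKB0 (by simp only [hL, one_smul, sub_self]) hc0 hcA hcv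
    (S := fun p => σ p - σ 0) (T := fun y => (τ (σ 0 + y)).2) (hσ.σ_an.continuousAt.sub continuousAt_const) (sub_self _) ?_ ?_
    (U := fun n z => g (Φ n) z * pn (Φ n z) ^ (-((1 / 2 : ℝ) * j / (m * D₁)))) (a := (μ' : ℝ) / m) (b := (1 / 2 : ℝ) * j / m) (k := k)
    (by positivity) (by positivity) hk0 (by linarith) ?_ (C := max B₀ (Real.exp (C * A ^ 2 * (s / 2) ^ 2))) (ε := min (s / 2) ε₀)
    (lt_max_of_lt_left (by linarith)) (lt_min (by linarith) hε₀) ?_ ?_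
  · have h1 : AnalyticAt ℂ (fun y : EN N => σ 0 + y) 0 := analyticAt_const.add analyticAt_id
    have h2 : AnalyticAt ℂ τ (σ 0 + 0) := by rw [add_zero]; exact hσ.τ_an
    exact ((ContinuousLinearMap.snd ℂ ℂ ℂ).analyticAt _).comp (AnalyticAt.comp (g := τ) (f := fun y : EN N => σ 0 + y) h2 h1)
  · show (τ (σ 0 + 0)).2 = 0
    rw [add_zero, hσG, hτ00]
    rfl
  · have h1 : (μ' : ℝ) / m < 1 := by rwa [div_lt_one hm0]
    have h2 : 0 ≤ (1 / 2 : ℝ) * j / m * M := by positivity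
    linarith
  · have hcs : ∀ᶠ n in (𝒰 : Filter ℕ), c n ∈ ball (0 : ℂ) (s / 2) := hc0.eventually (ball_mem_nhds _ (by linarith))
    filter_upwards [hEnt, hA, hcs] with n h1 h2 h3 h ρ hρ hh hρε
    have h4 : ball (c n) (s / 2) ⊆ ball 0 s := by
      refine ball_subset_ball' ?_
      have := mem_ball.1 h3
      linarith
    obtain ⟨y, hy, h5⟩ := maxU hX hΩ hm hj (by norm_num) (by norm_num) E h1 (w := c n) (R := s / 2) (A := A) (fun x hx => h2 x (h4 hx)) hρ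
      (hρε.trans (min_le_left _ _)) (z := c n + h) (by rw [mem_closedBall, dist_eq_norm, add_sub_cancel_left]; exact hh)
    refine ⟨y - c n, by rw [← dist_eq_norm]; exact mem_sphere.1 hy, ?_⟩
    rw [add_sub_cancel]
    refine h5.trans (mul_le_mul_of_nonneg_right (le_max_right _ _) ?_)
    exact mul_nonneg (E.nonneg _ h1 y) (Real.rpow_nonneg (E.pn_nonneg _) _)
  · filter_upwards [hEnt] with n h1 z hz hz1 hz2
    have h2 : ContinuousAt (Φ n) z := (h1.diff z).continuousAt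
    have h3 := hbox (Φ n) h1 (Φ n) (fun _ => 1) z h2 (Eventually.of_forall fun y => ⟨one_ne_zero, (one_smul _ _).symm⟩) hz1 (by
      rw [hσG]
      exact lt_of_lt_of_le hz2 (min_le_right _ _))
    rw [hσG] at h3 ⊢
    obtain ⟨h4, h5, h6⟩ := h3
    have hU0 : 0 ≤ g (Φ n) z * pn (Φ n z) ^ (-((1 / 2 : ℝ) * j / (m * D₁))) := mul_nonneg (E.nonneg _ h1 z) (Real.rpow_nonneg (E.pn_nonneg _) _)
    refine ⟨h4, h5.trans (mul_le_mul_of_nonneg_right (le_max_left _ _) hU0), h6.trans (mul_le_mul_of_nonneg_right (le_max_left _ _) ?_)⟩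
    exact mul_nonneg (mul_nonneg (Real.rpow_nonneg (norm_nonneg _) _) (le_max_of_le_left (norm_nonneg _))) (Real.rpow_nonneg (norm_nonneg _) _)

end Pool.Agent.SG2
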