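import Pool.Agent.SG2.Defs
import Pool.Agent.SG2.BubI
import Pool.Agent.H90.SG.Poly
import Pool.Agent.UC.FinA
import Pool.Agent.UC.FinS

/-!
# SG2 BubN: case (I), no bubbles of small degree at the smooth points of the negative curve
-/

set_option autoImplicit false

open Topology Filter Metric MvPolynomial

noncomputable section

namespace Pool.Agent.SG2

open Pool.Agent.H36.BP (EN)
open Pool.Agent.H14.PP (IsCone)
open Pool.Agent.H17BP (Surface IsChart IsForm)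
open Pool.Agent.H22.W (PseudoLength)
open Pool.Agent.H90.SG (modelS_coneE surface_coneE)
open Pool.Agent.UC (obj_of_bubble isCone_of_surface)
open Pool.Agent.SY (BubbleAt zer)
open Pool.Agent.H17EF (coneE)
open Pool.Agent.H17LG.Variety (FunField)
open Pool.Agent.H13.SM (conTan)
open Pool.Agent.H62.FC (Homog)

variable {N : ℕ}

/-- **Case (I)**: no bubbles of degree `M`, `j M ≤ μ`, at the smooth points of the negative curve. -/
theorem bub_near {P : Ideal (MvPolynomial (Fin (N + 1)) ℂ)} [P.IsPrime] {z : Fin 2 → FunField P} (hP : Homog P) (hz : IsTranscendenceBasis ℂ z)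
    (hsm : ∀ y : Fin (N + 1) → ℂ, y ≠ 0 → (∀ Q ∈ P, eval y Q = 0) → Module.finrank ℂ (conTan P y) ≤ 3)
    {n : PseudoLength (coneE P)} {T₀ : Set (EN N)} {𝒰 : Ultrafilter ℕ} {F : ℕ → ℂ → EN N} {v : ℕ → ℂ → ℂ} {H : ℂ → EN N} {u : ℂ → ℂ} {r : ℝ} {M : ℕ}
    (hb : BubbleAt (coneE P) T₀ n 𝒰 F v H u r M) (hM : 1 ≤ M) {m j : ℕ} {Ω : EN N → EN N → EN N → ℂ} {Q : MvPolynomial (Fin (N + 1)) ℂ} {D μ : ℕ}
    {σ : ℂ × ℂ → EN N} {τ : EN N → ℂ × ℂ} (h : NegAt P m j Ω Q D μ σ τ) (h0 : σ 0 = H 0) (htr : (deriv (fun z => τ (H z)) 0).1 ≠ 0)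
    (hμ : j * M ≤ μ) : False := by
  have hX : Surface (coneE P) := surface_coneE hP hz hsm
  have hc : IsCone (coneE P) := isCone_of_surface hX
  have hS := modelS_coneE hP hz hsm h.off.pos h.off.hom h.off.not_mem h.off.one_m h.off.one_j h.off.form h.off.noZeros
  obtain ⟨hobj, -⟩ := obj_of_bubble hX hb
  have hQa : ∀ y : EN N, AnalyticAt ℂ (fun y : EN N => eval y.ofLp Q) y := hS.eqs.an ()
  have hQs : ∀ (c : ℂ) (y : EN N), eval (c • y).ofLp Q = c ^ D * eval y.ofLp Q := hS.eqs.smul ()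
  obtain ⟨R, hR, hR0, hred⟩ := h.red
  have h00 : (0 : ℂ) ∈ ball (0 : ℂ) r := mem_ball_self hb.r_pos
  have hu0 : u 0 ≠ 0 := hb.u_ne 0 h00
  have hua : DifferentiableAt ℂ u 0 := hb.diff_u.differentiableAt (ball_mem_nhds _ hb.r_pos)
  obtain ⟨L, hL⟩ : ∃ L : EN N →L[ℂ] ℂ, L (σ 0) ≠ 0 := by
    obtain ⟨Λ, h1⟩ := exists_dual_vector ℂ (σ 0) (norm_ne_zero_iff.mpr h.chart.ne)
    refine ⟨Λ, ?_⟩
    rw [h1.2]
    simpa using h.chart.ne
  obtain ⟨q₀, hq₀, hd⟩ := deriv_ne (Q := fun y : EN N => eval y.ofLp Q) h.chart hL hQs hR hR0 hred (hb.cls_H.1.diff.analyticAt 0)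
    (Eventually.of_forall hb.cls_H.1.mem) h0 htr
  have hQH : eval (H 0).ofLp Q = 0 := by
    have h1 := hred.self_of_nhds
    rw [h0] at h1
    rw [h1]
    simp
  have hd2 : HasDerivAt (fun z => eval (u z • H z).ofLp Q) (u 0 ^ D * q₀) 0 := by
    have h1 := (hua.hasDerivAt.pow D).mul hd
    simp only [hQH, mul_zero, zero_add] at h1
    refine h1.congr_of_eventuallyEq (Eventually.of_forall fun z => ?_)
    exact hQs _ _
  refine bub_I hc hS hobj hM (Eventually.of_forall fun k => ⟨(hb.diff_v k).cexp.smul (hb.cls k).1.diff, fun z =>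
    hX.smul _ ((hb.cls k).1.mem z) _ (Complex.exp_ne_zero _)⟩) hQa hQs (fun y hy => ⟨fun h1 => h1.2, fun h1 => ⟨hy, h1⟩⟩)
    (mul_ne_zero (pow_ne_zero D hu0) hq₀) hd2 h.chart (inv_ne_zero hu0) (by rw [h0, smul_smul, inv_mul_cancel₀ hu0, one_smul]) hR hR0 hred h.lt
    h.order ?_
  intro d K K' hd1 hdM hK y
  exact ⟨hK.mem y, h.rat d K K' hd1 ((Nat.mul_le_mul_left j hdM).trans hμ) hK y⟩

end Pool.Agent.SG2
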