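import Pool.Agent.SG2.Defs
import Pool.Agent.SG.Can
import Pool.Agent.H90.SG.Order
import Pool.Agent.SG.Bub

/-!
# SG2 BubS: no bubbles of degree `M`, `j M > μ` (the point is blown up)
-/

set_option autoImplicit false

open Topology Filter Metric MvPolynomial

noncomputable section

namespace Pool.Agent.SG2

open Pool.Agent.H36.BP (EN)
open Pool.Agent.H14.PP (IsCone CurveAt)
open Pool.Agent.H17BP (Surface IsChart IsForm NoZeros)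
open Pool.Agent.H22.W (PseudoLength)
open Pool.Agent.H17EF (coneE)
open Pool.Agent.H17LG.Variety (FunField)
open Pool.Agent.H13.SM (conTan)
open Pool.Agent.H62.FC (Homog)
open Pool.Agent.UC (RatC)
open Pool.Agent.H36.TB (oC)
open Pool.Agent.SY (NullIn BubbleAt zer)

/-- The order of a germ with a lower bound: two-sided bound with an order `≤ μ`. -/
theorem order_two_sided {f : ℂ × ℂ → ℂ} (hf : AnalyticAt ℂ f 0) {μ : ℕ} {B : ℝ} (h : ∀ᶠ p in 𝓝 (0 : ℂ × ℂ), ‖p.1‖ ^ μ ≤ B * ‖f p‖) :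
    ∃ μ' ≤ μ, ∃ B' : ℝ, 1 ≤ B' ∧ ∀ᶠ p in 𝓝 (0 : ℂ × ℂ), ‖p.1‖ ^ μ' ≤ B' * ‖f p‖ ∧ ‖f p‖ ≤ B' * ‖p.1‖ ^ μ' := by
  have h0 : ∀ᶠ p in 𝓝 (0 : ℂ × ℂ), p.1 ≠ 0 → f p ≠ 0 := by
    filter_upwards [h] with p hp hp1 hf0
    rw [hf0, norm_zero, mul_zero] at hp
    have : 0 < ‖p.1‖ ^ μ := by
      have := norm_pos_iff.2 hp1
      positivity
    linarith
  obtain ⟨μ', w, hw, hw0, he⟩ := Pool.Agent.H90.SG.exists_order hf h0
  have hw1 : 0 < ‖w 0‖ := norm_pos_iff.2 hw0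
  have hwn : Tendsto (fun p => ‖w p‖) (𝓝 0) (𝓝 ‖w 0‖) := hw.continuousAt.norm
  have hlow := hwn.eventually (lt_mem_nhds (half_lt_self hw1))
  have hup := hwn.eventually (gt_mem_nhds (show ‖w 0‖ < 2 * ‖w 0‖ by linarith))
  refine ⟨μ', ?_, ?_⟩
  · by_contra hcon
    push Not at hcon
    -- `‖p.1‖ ^ μ ≤ 2 B ‖w 0‖ ‖p.1‖ ^ μ'`
    have h1 : ∀ᶠ p in 𝓝 (0 : ℂ × ℂ), p.1 ≠ 0 → 1 ≤ |B| * (2 * ‖w 0‖) * ‖p.1‖ := by
      have hsm : ∀ᶠ p in 𝓝 (0 : ℂ × ℂ), ‖p.1‖ < 1 := by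
        have h2 : Continuous fun p : ℂ × ℂ => ‖p.1‖ := by fun_prop
        have h3 := h2.tendsto 0
        simp only [Prod.fst_zero, norm_zero] at h3
        exact h3.eventually (gt_mem_nhds one_pos)
      filter_upwards [h, he, hup, hsm] with p g1 g2 g3 g4 g5
      have g6 : 0 < ‖p.1‖ := norm_pos_iff.2 g5
      have g7 : ‖p.1‖ ^ μ' ≤ ‖p.1‖ ^ (μ + 1) := pow_le_pow_of_le_one g6.le g4.le hcon
      have g8 : B * ‖f p‖ ≤ |B| * (‖p.1‖ ^ (μ + 1) * (2 * ‖w 0‖)) := by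
        rw [g2, norm_mul, norm_pow]
        refine mul_le_mul (le_abs_self B) (mul_le_mul g7 g3.le (norm_nonneg _) (by positivity)) (by positivity) (abs_nonneg B)
      have g9 : ‖p.1‖ ^ μ * 1 ≤ ‖p.1‖ ^ μ * (|B| * (2 * ‖w 0‖) * ‖p.1‖) := by
        rw [mul_one]
        refine g1.trans (g8.trans (le_of_eq ?_))
        rw [pow_succ]
        ring
      exact le_of_mul_le_mul_left g9 (by positivity)
    have h2 : Tendsto (fun c : ℂ => (c, (0 : ℂ))) (𝓝[≠] 0) (𝓝 (0 : ℂ × ℂ)) := by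
      have : Continuous fun c : ℂ => (c, (0 : ℂ)) := by fun_prop
      exact (this.tendsto 0).mono_left nhdsWithin_le_nhds
    have h3 : Tendsto (fun c : ℂ => |B| * (2 * ‖w 0‖) * ‖c‖) (𝓝[≠] 0) (𝓝 0) := by
      have : Continuous fun c : ℂ => |B| * (2 * ‖w 0‖) * ‖c‖ := by fun_prop
      have h4 := this.tendsto 0
      rw [norm_zero, mul_zero] at h4
      exact h4.mono_left nhdsWithin_le_nhds
    obtain ⟨c, hc1, hc2, hc3⟩ := ((h2.eventually h1).and ((h3.eventually (gt_mem_nhds one_pos)).and self_mem_nhdsWithin)).exists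
    exact absurd (hc1 hc3) (not_le.2 hc2)
  · obtain ⟨B', hB'⟩ : ∃ B', B' = 2 * (‖w 0‖ + 1 + ‖w 0‖⁻¹) := ⟨_, rfl⟩
    have h4 : 0 < ‖w 0‖⁻¹ := inv_pos.2 hw1
    refine ⟨B', by linarith, ?_⟩
    filter_upwards [he, hlow, hup] with p g1 g2 g3
    rw [g1, norm_mul, norm_pow]
    constructor
    · have g4 : 2 * ‖w 0‖⁻¹ ≤ B' := by linarith
      have g5 : 1 ≤ B' * ‖w p‖ := by
        calc (1 : ℝ) = 2 * ‖w 0‖⁻¹ * (‖w 0‖ / 2) := by field_simp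
          _ ≤ B' * ‖w p‖ := mul_le_mul g4 g2.le (by positivity) (by linarith)
      calc ‖p.1‖ ^ μ' = ‖p.1‖ ^ μ' * 1 := (mul_one _).symm
        _ ≤ ‖p.1‖ ^ μ' * (B' * ‖w p‖) := mul_le_mul_of_nonneg_left g5 (by positivity)
        _ = B' * (‖p.1‖ ^ μ' * ‖w p‖) := by ring
    · rw [mul_comm B']
      exact mul_le_mul_of_nonneg_left (by linarith) (by positivity)

variable {N : ℕ} {P : Ideal (MvPolynomial (Fin (N + 1)) ℂ)}

/-- **Case II** (`SG/Bub` with a general form): no bubbles of degree `M`, `j M > μ`. -/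
theorem bub_sector [P.IsPrime] {z : Fin 2 → FunField P} (hP : Homog P) (hz : IsTranscendenceBasis ℂ z)
    (hsm : ∀ y : Fin (N + 1) → ℂ, y ≠ 0 → (∀ Q ∈ P, eval y Q = 0) → Module.finrank ℂ (conTan P y) ≤ 3)
    {n : PseudoLength (coneE P)} {R : MvPolynomial (Fin (N + 1)) ℂ} {e : ℕ} (hR : R.IsHomogeneous e) (hRP : R ∉ P) (hN : NullIn P n R)
    {T₀ : Set (EN N)} {𝒰 : Ultrafilter ℕ} {F : ℕ → ℂ → EN N} {v : ℕ → ℂ → ℂ} {H : ℂ → EN N} {u : ℂ → ℂ} {r : ℝ} {M : ℕ}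
    (hb : BubbleAt (coneE P) T₀ n 𝒰 F v H u r M) {m j : ℕ} {Ω : EN N → EN N → EN N → ℂ} {Q : MvPolynomial (Fin (N + 1)) ℂ} {D μ : ℕ}
    (h : FormOff P m j Ω Q D) {σ : ℂ × ℂ → EN N} {τ : EN N → ℂ × ℂ} (hσ : IsChart (coneE P) σ τ) (h0 : σ 0 = H 0)
    (hd : deriv (fun z => τ (H z)) 0 = (1, 0)) (hs : ∀ᶠ p in 𝓝 (0 : ℂ × ℂ), eval (σ (p.1, p.1 * p.2)).ofLp Q = 0 → p.1 = 0)
    (ho : ∃ B : ℝ, ∀ᶠ p in 𝓝 (0 : ℂ × ℂ), ‖p.1‖ ^ μ ≤ B * ‖oC Ω σ (p.1, p.1 * p.2)‖) (hμ : μ < j * M) : False := by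
  have hX : Surface (coneE P) := Pool.Agent.H90.SG.surface_coneE hP hz hsm
  have hc : IsCone (coneE P) := Pool.Agent.SG.isCone_of_surface hX
  have hM : 1 ≤ M := by
    rcases Nat.eq_zero_or_pos M with rfl | h1
    · rw [mul_zero] at hμ
      omega
    · exact h1
  have hcur : CurveAt (coneE P) H 0 := ⟨hb.cls_H.1.diff.analyticAt 0, Eventually.of_forall hb.cls_H.1.mem⟩
  have hn : n.toFun (σ 0) (fderiv ℂ σ 0 (1, 0)) ≠ 0 := by
    have h1 := Pool.Agent.SG.length_chart hc n hσ hcur h0.symm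
    rw [hd, hb.cls_H.2 0] at h1
    rw [← h1]
    exact one_ne_zero
  obtain ⟨Q', D', hD', hQ', hQP', hnz', -, hq, hT, hrat⟩ := Pool.Agent.SG.exists_curve_of hP hz hX n hR hRP hN h.hom h.noZeros hσ hn (by
    filter_upwards [hs] with p hp hp1 hp2
    exact hp1 (hp hp2.2))
  obtain ⟨B, hB⟩ := ho
  have ht : AnalyticAt ℂ (fun p : ℂ × ℂ => (p.1, p.1 * p.2)) 0 := analyticAt_fst.prod (analyticAt_fst.mul analyticAt_snd)
  have han : AnalyticAt ℂ (fun p : ℂ × ℂ => oC Ω σ (p.1, p.1 * p.2)) 0 := by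
    have h1 : AnalyticAt ℂ (oC Ω σ) ((fun p : ℂ × ℂ => (p.1, p.1 * p.2)) 0) := by
      have h2 : (fun p : ℂ × ℂ => (p.1, p.1 * p.2)) 0 = 0 := by simp
      rw [h2]
      exact h.form.analytic σ 0 hσ.σ_an hσ.σ_mem
    exact AnalyticAt.fun_comp (g := oC Ω σ) (f := fun p : ℂ × ℂ => (p.1, p.1 * p.2)) h1 ht
  obtain ⟨μ', hμ', B', hB1, hB2⟩ := order_two_sided han hB
  exact Pool.Agent.SG.bub (Pool.Agent.H90.SG.modelS_coneE hP hz hsm hD' hQ' hQP' h.one_m h.one_j h.form hnz') hc hb hM hσ h0 hd hq hT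
    (fun d K K' hd _ hK => hrat d K K' hd hK) (lt_of_le_of_lt hμ' hμ) ⟨B', hB1, hB2⟩

end Pool.Agent.SG2
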