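import Pool.Agent.SY.Plug
import Pool.Agent.UC.Defs
import Pool.Agent.H36.TB.Defs

/-!
# SG2 Defs: surfaces with negative curves

`FormOff P m j Ω Q D`: the section `Ω` of `m K - j H` has no zeros on the surface outside `{Q = 0}`.
The point `x` of the surface is
* `Free`: there is such a section with `Q x ≠ 0`;
* `SmoothNeg`: near `x` the curve `{Q = 0}` is smooth, with the reduced equation `Q`, and covered by rational curves, `Ω` vanishes to order at most `μ < m` along it, and the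
  rational curves of degree `d`, `j d ≤ μ`, are contained in `{Q = 0}`;
* `NullPt`: the tangent vectors at `x` have length zero for every pseudo-length.
-/

set_option autoImplicit false

open Topology Filter Metric MvPolynomial

noncomputable section

namespace Pool.Agent.SG2

open Pool.Agent.H36.BP (EN)
open Pool.Agent.H17BP (Pr Surface IsForm NoZeros IsChart)
open Pool.Agent.H22.W (PseudoLength)
open Pool.Agent.H17EF (coneE)
open Pool.Agent.H36.TB (oC)
open Pool.Agent.UC (RatC)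
open Pool.Agent.SY (zer)

variable {N : ℕ}

/-- the section `Ω` of `m K - j H` has no zeros on the surface outside `{Q = 0}` -/
structure FormOff (P : Ideal (MvPolynomial (Fin (N + 1)) ℂ)) (m j : ℕ) (Ω : EN N → EN N → EN N → ℂ) (Q : MvPolynomial (Fin (N + 1)) ℂ) (D : ℕ) :
    Prop where
  one_m : 1 ≤ m
  one_j : 1 ≤ j
  form : IsForm (coneE P) m j Ω
  hom : Q.IsHomogeneous D
  pos : 1 ≤ D
  not_mem : Q ∉ P
  noZeros : NoZeros (coneE P) (zer P Q) Ω

/-- a point off the negative curves -/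
def Free (P : Ideal (MvPolynomial (Fin (N + 1)) ℂ)) (x : EN N) : Prop :=
  ∃ (m j : ℕ) (Ω : EN N → EN N → EN N → ℂ) (Q : MvPolynomial (Fin (N + 1)) ℂ) (D : ℕ), FormOff P m j Ω Q D ∧ eval x.ofLp Q ≠ 0

/-- near `σ 0` the curve `{Q = 0}` is smooth with the reduced equation `Q` and covered by rational curves, `Ω` vanishes to order at most `μ < m` -/
structure NegAt (P : Ideal (MvPolynomial (Fin (N + 1)) ℂ)) (m j : ℕ) (Ω : EN N → EN N → EN N → ℂ) (Q : MvPolynomial (Fin (N + 1)) ℂ) (D μ : ℕ)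
    (σ : ℂ × ℂ → EN N) (τ : EN N → ℂ × ℂ) : Prop where
  off : FormOff P m j Ω Q D
  chart : IsChart (coneE P) σ τ
  red : ∃ R : ℂ × ℂ → ℂ, AnalyticAt ℂ R 0 ∧ R 0 ≠ 0 ∧ ∀ᶠ p in 𝓝 (0 : ℂ × ℂ), eval (σ p).ofLp Q = p.1 * R p
  lt : μ < m
  order : ∃ B : ℝ, ∀ᶠ p in 𝓝 (0 : ℂ × ℂ), ‖p.1‖ ^ μ ≤ B * ‖oC Ω σ p‖
  cover : ∀ᶠ y in 𝓝 (σ 0), y ∈ zer P Q → ∃ (d : ℕ) (K K' : ℂ → EN N) (z : ℂ), 1 ≤ d ∧ RatC (coneE P) d K K' ∧ Pr (K z) y
  rat : ∀ (d : ℕ) (K K' : ℂ → EN N), 1 ≤ d → j * d ≤ μ → RatC (coneE P) d K K' → ∀ z, eval (K z).ofLp Q = 0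

/-- a smooth point of the negative curves -/
def SmoothNeg (P : Ideal (MvPolynomial (Fin (N + 1)) ℂ)) (x : EN N) : Prop :=
  ∃ (m j : ℕ) (Ω : EN N → EN N → EN N → ℂ) (Q : MvPolynomial (Fin (N + 1)) ℂ) (D μ : ℕ) (σ : ℂ × ℂ → EN N) (τ : EN N → ℂ × ℂ),
    NegAt P m j Ω Q D μ σ τ ∧ σ 0 = x

/-- the tangent vectors at `x` have length zero -/
def NullPt (P : Ideal (MvPolynomial (Fin (N + 1)) ℂ)) (x : EN N) : Prop :=
  ∀ (n : PseudoLength (coneE P)) (v : EN N), Pool.Agent.H14.PP.Tan (coneE P) x v → n.toFun x v = 0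

end Pool.Agent.SG2
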