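import Pool.Agent.SG2.NegS
import Pool.Agent.SG2.BubS
import Pool.Agent.SG2.BubN
import Pool.Agent.SG.Can
import Pool.Agent.SY.Joint

/-!
# SG2 End2: no bubbles on a surface whose points are free, smooth points of the negative curves, or null points
-/

set_option autoImplicit false

open Topology Filter Metric MvPolynomial

noncomputable section

namespace Pool.Agent.SG2

open Pool.Agent.H36.BP (EN)
open Pool.Agent.H14.PP (CurveAt)
open Pool.Agent.H17BP (Surface IsChart)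
open Pool.Agent.H22.W (PseudoLength tan_curve)
open Pool.Agent.H17EF (coneE)
open Pool.Agent.H17LG.Variety (FunField)
open Pool.Agent.H13.SM (conTan)
open Pool.Agent.H62.FC (Homog)
open Pool.Agent.H36.TB (oC)
open Pool.Agent.SY (NullIn BubbleAt NoBubblesAll zer)
open Pool.Agent.SG (exists_chart_dir hord_zero isCone_of_surface)

variable {N : ℕ} {P : Ideal (MvPolynomial (Fin (N + 1)) ℂ)}

/-- a form which is not zero at `σ 0` -/
private theorem end2_ne {σ : ℂ × ℂ → EN N} (hσ : ContinuousAt σ 0) {Q : MvPolynomial (Fin (N + 1)) ℂ} (hQ : eval (σ 0).ofLp Q ≠ 0) :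
    ∀ᶠ p in 𝓝 (0 : ℂ × ℂ), eval (σ (p.1, p.1 * p.2)).ofLp Q = 0 → p.1 = 0 := by
  have ht : Tendsto (fun p : ℂ × ℂ => (p.1, p.1 * p.2)) (𝓝 0) (𝓝 0) := by
    have h : Continuous fun p : ℂ × ℂ => (p.1, p.1 * p.2) := by fun_prop
    have h1 := h.tendsto 0
    have h2 : (((0 : ℂ × ℂ).1, (0 : ℂ × ℂ).1 * (0 : ℂ × ℂ).2) : ℂ × ℂ) = 0 := by simp
    rwa [h2] at h1
  have h1 : Continuous fun y : EN N => eval y.ofLp Q := by
    have h2 : Continuous fun y : EN N => y.ofLp := PiLp.continuous_ofLp 2 _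
    exact (MvPolynomial.continuous_eval Q).comp h2
  have h2 : Tendsto (fun p : ℂ × ℂ => eval (σ (p.1, p.1 * p.2)).ofLp Q) (𝓝 0) (𝓝 (eval (σ 0).ofLp Q)) :=
    (h1.tendsto _).comp (hσ.tendsto.comp ht)
  filter_upwards [h2.eventually_ne hQ] with p hp h3
  exact absurd h3 hp

/-- **No bubbles.** -/
theorem noBubblesAll [P.IsPrime] {z : Fin 2 → FunField P} (hP : Homog P) (hz : IsTranscendenceBasis ℂ z)
    (hsm : ∀ y : Fin (N + 1) → ℂ, y ≠ 0 → (∀ Q ∈ P, eval y Q = 0) → Module.finrank ℂ (conTan P y) ≤ 3)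
    (h : ∀ x ∈ coneE P, Free P x ∨ SmoothNeg P x ∨ NullPt P x) : NoBubblesAll P := by
  have hX := Pool.Agent.H90.SG.surface_coneE hP hz hsm
  have hc := isCone_of_surface hX
  intro n R d hR hRP hN
  refine ⟨1, 0, isHomogeneous_one _ _, fun h => Ideal.IsPrime.ne_top ‹P.IsPrime› ((Ideal.eq_top_iff_one P).2 h), ?_⟩
  intro 𝒰 F v H u r M hb
  by_contra hM
  have hM : 1 ≤ M := Nat.one_le_iff_ne_zero.2 hM
  have hH : CurveAt (coneE P) H 0 := ⟨hb.cls_H.1.diff.analyticAt 0, Eventually.of_forall hb.cls_H.1.mem⟩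
  have hnH : n.toFun (H 0) (deriv H 0) ≠ 0 := by
    rw [hb.cls_H.2 0]
    exact one_ne_zero
  obtain ⟨σ, τ, hσ, h0, hd, hnσ⟩ := exists_chart_dir hX hc n hH hnH
  have hnσ' : n.toFun (σ 0) (fderiv ℂ σ 0 (1, 0)) ≠ 0 := hnσ ▸ hnH
  rcases h (H 0) (hb.cls_H.1.mem 0) with ⟨m, j, Ω, Q, D, hoff, hq⟩ | ⟨m, j, Ω, Q, D, μ, σ₁, τ₁, hneg, h1⟩ | hnull
  · rw [← h0] at hq
    refine bub_sector hP hz hsm hR hRP hN hb hoff hσ h0 hd (end2_ne hσ.σ_an.continuousAt hq) (μ := 0) ?_ (Nat.mul_pos hoff.one_j hM)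
    obtain ⟨B, -, hB⟩ := hord_zero hoff.form hoff.noZeros hσ fun h2 => hq h2.2
    exact ⟨B, hB.mono fun p hp => hp.1⟩
  · obtain ⟨hs, ho, htr⟩ := neg_sector hP hz hX hc n hR hRP hN hneg hH h1 hσ h0 hd hnσ'
    rcases lt_or_ge μ (j * M) with h2 | h2
    · exact bub_sector hP hz hsm hR hRP hN hb hneg.off hσ h0 hd hs ho h2
    · exact bub_near hP hz hsm hb hM hneg h1 htr h2
  · exact hnH (hnull n _ (tan_curve hH))

end Pool.Agent.SG2
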