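import Pool.Agent.SG2.Defs
import Pool.Agent.SG.RX
import Pool.Agent.SG.ChN
import Pool.Agent.H36.TB.Co

/-!
# SG2 NegS: a curve of positive length is transversal to the negative curve

`χ = τ ∘ σ'` is the change of coordinates.  There is no point of `{Q = 0}` in the sector around the direction `(1, 0)` of the chart `σ'`: its points lie on
rational curves (`SG/RX.exists_form`).  Hence the first component of `Dχ(0) (1, 0) = (τ ∘ H)'(0)` is not zero, `‖p.1‖ ≤ C ‖(χ (p.1, p.1 p.2)).1‖`, and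
`‖oC Ω σ (χ p)‖ ≤ C ‖oC Ω σ' p‖`.
-/

set_option autoImplicit false

open Topology Filter Metric MvPolynomial

noncomputable section

namespace Pool.Agent.SG2

open Pool.Agent.H36.BP (EN)
open Pool.Agent.H14.PP (IsCone CurveAt)
open Pool.Agent.H17BP (Surface IsChart Pr IsForm NoZeros)
open Pool.Agent.H22.W (PseudoLength)
open Pool.Agent.H17EF (coneE)
open Pool.Agent.H17LG.Variety (FunField)
open Pool.Agent.H62.FC (Homog)
open Pool.Agent.UC (RatC)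
open Pool.Agent.H36.TB (oC jc jc_cont exists_fac)
open Pool.Agent.SY (NullIn zer)
open Pool.Agent.SG (fderiv_tau_comp fderiv_tau_self tau_zero)

section lin

variable {V : Type} [NormedAddCommGroup V] [NormedSpace ℂ V] {X : Set V} {σ σ' : ℂ × ℂ → V} {τ τ' : V → ℂ × ℂ}

theorem tendsto_sector : Tendsto (fun p : ℂ × ℂ => (p.1, p.1 * p.2)) (𝓝 0) (𝓝 (0 : ℂ × ℂ)) := by
  have h1 : Continuous fun p : ℂ × ℂ => (p.1, p.1 * p.2) := by fun_prop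
  have h2 := h1.tendsto 0
  have h3 : (((0 : ℂ × ℂ).1, (0 : ℂ × ℂ).1 * (0 : ℂ × ℂ).2) : ℂ × ℂ) = 0 := by simp
  rwa [h3] at h2

/-- the change of coordinates of two charts at the same point -/
structure Chg (σ σ' : ℂ × ℂ → V) (τ : V → ℂ × ℂ) (c : ℂ × ℂ → ℂ) (χ : ℂ × ℂ → ℂ × ℂ) : Prop where
  c_an : AnalyticAt ℂ c 0
  c_zero : c 0 = 1
  χ_eq : χ = fun p => τ (σ' p)
  an : AnalyticAt ℂ χ 0
  zero : χ 0 = 0
  fac : ∀ᶠ p in 𝓝 (0 : ℂ × ℂ), σ' p = c p • σ (χ p)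

theorem exists_chg (hX : ∀ x ∈ X, ∀ c : ℂ, c ≠ 0 → c • x ∈ X) (h : IsChart X σ τ) (h' : IsChart X σ' τ') (h0 : σ' 0 = σ 0) :
    ∃ c χ, Chg σ σ' τ c χ := by
  obtain ⟨c, h1, h2, h3, h4, h5⟩ := exists_fac hX h one_ne_zero h'.σ_an h'.σ_mem (by rw [one_smul]; exact h0)
  simp only [inv_one, one_smul] at h3 h4 h5
  exact ⟨c, _, h1, h2, rfl, h3, h4, h5⟩

variable {c : ℂ × ℂ → ℂ} {χ : ℂ × ℂ → ℂ × ℂ}

theorem Chg.tendsto (g : Chg σ σ' τ c χ) : Tendsto χ (𝓝 0) (𝓝 0) := by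
  have := g.an.continuousAt.tendsto
  rwa [g.zero] at this

/-- the derivatives at the point -/
theorem Chg.fderiv_eq (g : Chg σ σ' τ c χ) (h : IsChart X σ τ) (w : ℂ × ℂ) :
    fderiv ℂ σ' 0 w = fderiv ℂ σ 0 (fderiv ℂ χ 0 w) + fderiv ℂ c 0 w • σ 0 := by
  have h1 : HasFDerivAt σ (fderiv ℂ σ 0) (χ 0) := by rw [g.zero]; exact h.σ_an.differentiableAt.hasFDerivAt
  have h2 : HasFDerivAt (fun y => σ (χ y)) ((fderiv ℂ σ 0).comp (fderiv ℂ χ 0)) 0 :=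
    HasFDerivAt.comp (g := σ) (f := χ) 0 h1 g.an.differentiableAt.hasFDerivAt
  have h3 := (g.c_an.differentiableAt.hasFDerivAt.smul h2).congr_of_eventuallyEq g.fac
  rw [h3.fderiv]
  simp [g.c_zero, g.zero]

/-- the derivative of `χ` is injective -/
theorem Chg.inj (g : Chg σ σ' τ c χ) (h : IsChart X σ τ) (h' : IsChart X σ' τ') (h0 : σ' 0 = σ 0) {w : ℂ × ℂ} (hw : fderiv ℂ χ 0 w = 0) : w = 0 := by
  have h1 := g.fderiv_eq h w
  rw [hw, map_zero, zero_add, ← h0] at h1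
  have h2 := fderiv_tau_comp h' w
  rw [h1, map_smul, fderiv_tau_self h', smul_zero] at h2
  exact h2.symm

theorem Chg.jc_ne (g : Chg σ σ' τ c χ) (h : IsChart X σ τ) (h' : IsChart X σ' τ') (h0 : σ' 0 = σ 0) : jc χ 0 ≠ 0 := by
  intro hj
  set A := fderiv ℂ χ 0 (1, 0) with hA
  set B := fderiv ℂ χ 0 (0, 1) with hB
  have hj' : A.1 * B.2 - A.2 * B.1 = 0 := hj
  have hlin : ∀ a b : ℂ, fderiv ℂ χ 0 (a, b) = (a * A.1 + b * B.1, a * A.2 + b * B.2) := by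
    intro a b
    have e1 : ((a, b) : ℂ × ℂ) = a • (1, 0) + b • (0, 1) := by ext <;> simp
    rw [e1, map_add, map_smul, map_smul, ← hA, ← hB]
    ext <;> simp
  have k1 := g.inj h h' h0 (w := (B.2, -A.2)) (by
    rw [hlin]
    ext
    · simp only [Prod.fst_zero]; linear_combination hj'
    · simp only [Prod.snd_zero]; ring)
  have k2 := g.inj h h' h0 (w := (B.1, -A.1)) (by
    rw [hlin]
    ext
    · simp only [Prod.fst_zero]; ring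
    · simp only [Prod.snd_zero]; linear_combination (-1) * hj')
  rw [Prod.mk_eq_zero, neg_eq_zero] at k1 k2
  have k3 := g.inj h h' h0 (w := (1, 0)) (by rw [← hA]; exact Prod.ext k2.2 k1.2)
  rw [Prod.mk_eq_zero] at k3
  exact one_ne_zero k3.1

/-- the coefficient of the form in the two charts -/
theorem Chg.oC_le (g : Chg σ σ' τ c χ) (hX : ∀ x ∈ X, ∀ c : ℂ, c ≠ 0 → c • x ∈ X) (h : IsChart X σ τ) (h' : IsChart X σ' τ') (h0 : σ' 0 = σ 0)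
    [CompleteSpace V] {m j : ℕ} {Ω : V → V → V → ℂ} (hΩ : IsForm X m j Ω) :
    ∃ B : ℝ, 0 < B ∧ ∀ᶠ p in 𝓝 (0 : ℂ × ℂ), ‖oC Ω σ (χ p)‖ ≤ B * ‖oC Ω σ' p‖ := by
  have hj := g.jc_ne h h' h0
  have hc0 : c 0 ≠ 0 := by rw [g.c_zero]; exact one_ne_zero
  have hq : ContinuousAt (fun p => c p ^ j / jc χ p ^ m) 0 :=
    (g.c_an.continuousAt.pow j).div ((jc_cont g.an).pow m) (pow_ne_zero _ hj)
  refine ⟨‖c 0 ^ j / jc χ 0 ^ m‖ + 1, by positivity, ?_⟩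
  filter_upwards [hq.norm.eventually_lt_const (lt_add_one _), g.fac.eventually_nhds, g.c_an.eventually_analyticAt,
    g.an.eventually_analyticAt, g.tendsto.eventually h.σ_an.eventually_analyticAt, g.tendsto.eventually h.σ_mem.eventually_nhds,
    g.c_an.continuousAt.eventually_ne hc0, (jc_cont g.an).eventually_ne hj] with p h1 h2 h3 h4 h5 h6 h7 h8
  have h9 := Pool.Agent.H36.TB.oC_comp hX hΩ h3 h4 h5 h6 h7 h2
  have h10 : oC Ω σ (χ p) = c p ^ j / jc χ p ^ m * oC Ω σ' p := by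
    rw [div_mul_eq_mul_div, h9, mul_div_cancel_left₀ _ (pow_ne_zero _ h8)]
  rw [h10, norm_mul]
  exact mul_le_mul_of_nonneg_right h1.le (norm_nonneg _)

/-- the direction of a curve in the two charts -/
theorem Chg.dir (g : Chg σ σ' τ c χ) (hX : ∀ x ∈ X, ∀ c : ℂ, c ≠ 0 → c • x ∈ X) (h : IsChart X σ τ) (h' : IsChart X σ' τ') (h0 : σ' 0 = σ 0)
    {H : ℂ → V} (hH : AnalyticAt ℂ H 0) (hHX : ∀ᶠ z in 𝓝 (0 : ℂ), H z ∈ X) (hH0 : H 0 = σ' 0) :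
    deriv (fun z => τ (H z)) 0 = fderiv ℂ χ 0 (deriv (fun z => τ' (H z)) 0) := by
  have hfst : HasFDerivAt (fun p : ℂ × ℂ => p.1) (ContinuousLinearMap.fst ℂ ℂ ℂ) 0 := hasFDerivAt_fst
  have hψ : AnalyticAt ℂ (fun p : ℂ × ℂ => H p.1) 0 := AnalyticAt.comp (g := H) (f := fun p : ℂ × ℂ => p.1) hH analyticAt_fst
  have hψX : ∀ᶠ p in 𝓝 (0 : ℂ × ℂ), H p.1 ∈ X := by
    have h1 : Tendsto (fun p : ℂ × ℂ => p.1) (𝓝 0) (𝓝 (0 : ℂ)) := continuous_fst.tendsto _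
    exact h1.eventually hHX
  obtain ⟨c₁, k1, k2, k3, k4, k5⟩ := exists_fac hX h' one_ne_zero hψ hψX (by rw [one_smul]; exact hH0)
  simp only [inv_one, one_smul] at k3 k4 k5
  have g₁ : Chg σ' (fun p : ℂ × ℂ => H p.1) τ' c₁ (fun p : ℂ × ℂ => τ' (H p.1)) := ⟨k1, k2, rfl, k3, k4, k5⟩
  have hτ'an : AnalyticAt ℂ (fun z => τ' (H z)) 0 := by
    have : AnalyticAt ℂ τ' (H 0) := by rw [hH0]; exact h'.τ_an
    exact AnalyticAt.comp (g := τ') (f := H) this hH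
  have e1 : fderiv ℂ (fun p : ℂ × ℂ => H p.1) 0 (1, 0) = deriv H 0 := by
    have h1 : HasFDerivAt H (ContinuousLinearMap.toSpanSingleton ℂ (deriv H 0)) ((fun p : ℂ × ℂ => p.1) 0) :=
      hH.differentiableAt.hasDerivAt.hasFDerivAt
    have h2 := h1.comp 0 hfst
    have h3 : HasFDerivAt (fun p : ℂ × ℂ => H p.1) _ 0 := h2
    rw [h3.fderiv]
    simp
  have e2 : fderiv ℂ (fun p : ℂ × ℂ => τ' (H p.1)) 0 (1, 0) = deriv (fun z => τ' (H z)) 0 := by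
    have h1 : HasFDerivAt (fun z => τ' (H z)) (ContinuousLinearMap.toSpanSingleton ℂ (deriv (fun z => τ' (H z)) 0)) ((fun p : ℂ × ℂ => p.1) 0) :=
      hτ'an.differentiableAt.hasDerivAt.hasFDerivAt
    have h2 := h1.comp 0 hfst
    have h3 : HasFDerivAt (fun p : ℂ × ℂ => τ' (H p.1)) _ 0 := h2
    rw [h3.fderiv]
    simp
  have e3 := g₁.fderiv_eq h' (1, 0)
  rw [e1, e2] at e3
  have e4 : deriv (fun z => τ (H z)) 0 = fderiv ℂ τ (σ 0) (deriv H 0) := by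
    have h2 : HasFDerivAt τ (fderiv ℂ τ (σ 0)) (H 0) := by
      rw [hH0, h0]; exact h.τ_an.differentiableAt.hasFDerivAt
    exact (h2.comp_hasDerivAt 0 hH.differentiableAt.hasDerivAt).deriv
  rw [e4, e3, map_add, map_smul, h0, fderiv_tau_self h, smul_zero, add_zero, g.fderiv_eq h, map_add, map_smul, fderiv_tau_self h,
    smul_zero, add_zero, fderiv_tau_comp h]

/-- in the sector the first coordinates of the two charts are comparable -/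
theorem Chg.fst_le (g : Chg σ σ' τ c χ) (hw : (fderiv ℂ χ 0 (1, 0)).1 ≠ 0) :
    ∀ᶠ p in 𝓝 (0 : ℂ × ℂ), ‖p.1‖ ≤ 2 / ‖(fderiv ℂ χ 0 (1, 0)).1‖ * ‖(χ (p.1, p.1 * p.2)).1‖ := by
  set L := fderiv ℂ χ 0 with hL
  have hw0 : 0 < ‖(L (1, 0)).1‖ := norm_pos_iff.2 hw
  have h1 : HasFDerivAt χ L 0 := g.an.differentiableAt.hasFDerivAt
  have h2 := (hasFDerivAt_iff_isLittleO_nhds_zero.1 h1).def (show 0 < ‖(L (1, 0)).1‖ / 4 by positivity)
  have hs : Tendsto (fun p : ℂ × ℂ => (p.1, p.1 * p.2)) (𝓝 0) (𝓝 (0 : ℂ × ℂ)) := tendsto_sector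
  have h3 : ∀ᶠ p in 𝓝 (0 : ℂ × ℂ), ‖p.2‖ ≤ 1 := by
    have : Tendsto (fun p : ℂ × ℂ => ‖p.2‖) (𝓝 0) (𝓝 ‖(0 : ℂ × ℂ).2‖) := (continuous_snd.norm).tendsto _
    rw [Prod.snd_zero, norm_zero] at this
    exact (this.eventually (gt_mem_nhds one_pos)).mono fun p hp => hp.le
  have h4 : ∀ᶠ p in 𝓝 (0 : ℂ × ℂ), ‖p.2‖ * ‖(L (0, 1)).1‖ ≤ ‖(L (1, 0)).1‖ / 4 := by
    have : Tendsto (fun p : ℂ × ℂ => ‖p.2‖ * ‖(L (0, 1)).1‖) (𝓝 0) (𝓝 (‖(0 : ℂ × ℂ).2‖ * ‖(L (0, 1)).1‖)) :=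
      ((continuous_snd.norm).mul continuous_const).tendsto _
    rw [Prod.snd_zero, norm_zero, zero_mul] at this
    exact (this.eventually (gt_mem_nhds (show (0 : ℝ) < ‖(L (1, 0)).1‖ / 4 by positivity))).mono fun p hp => hp.le
  filter_upwards [hs.eventually h2, h3, h4] with p g2 g3 g4
  simp only [zero_add, g.zero, sub_zero] at g2
  have e1 : L (p.1, p.1 * p.2) = p.1 • L (1, 0) + (p.1 * p.2) • L (0, 1) := by
    rw [← map_smul, ← map_smul, ← map_add]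
    congr 1
    ext <;> simp
  have e2 : ‖((p.1, p.1 * p.2) : ℂ × ℂ)‖ ≤ ‖p.1‖ := by
    rw [Prod.norm_def]
    refine max_le le_rfl ?_
    rw [norm_mul]
    exact mul_le_of_le_one_right (norm_nonneg _) g3
  have e3 : ‖(χ (p.1, p.1 * p.2)).1 - (L (p.1, p.1 * p.2)).1‖ ≤ ‖(L (1, 0)).1‖ / 4 * ‖p.1‖ := by
    refine le_trans (norm_fst_le (χ (p.1, p.1 * p.2) - L (p.1, p.1 * p.2))) (g2.trans ?_)
    gcongr
  have e4 : (L (p.1, p.1 * p.2)).1 = p.1 * (L (1, 0)).1 + p.1 * (p.2 * (L (0, 1)).1) := by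
    rw [e1]
    simp only [Prod.fst_add, Prod.smul_fst, smul_eq_mul]
    ring
  have e5 : ‖p.1 * (p.2 * (L (0, 1)).1)‖ ≤ ‖p.1‖ * (‖(L (1, 0)).1‖ / 4) := by
    rw [norm_mul, norm_mul]
    gcongr
  have e6 : ‖p.1 * (L (1, 0)).1‖ ≤ ‖(χ (p.1, p.1 * p.2)).1‖ + ‖(χ (p.1, p.1 * p.2)).1 - (L (p.1, p.1 * p.2)).1‖ +
      ‖p.1 * (p.2 * (L (0, 1)).1)‖ := by
    have : p.1 * (L (1, 0)).1 = (χ (p.1, p.1 * p.2)).1 - ((χ (p.1, p.1 * p.2)).1 - (L (p.1, p.1 * p.2)).1) - p.1 * (p.2 * (L (0, 1)).1) := by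
      rw [e4]; ring
    calc ‖p.1 * (L (1, 0)).1‖ = _ := by rw [this]
      _ ≤ _ := (norm_sub_le _ _).trans (add_le_add_left (norm_sub_le _ _) _)
  rw [norm_mul] at e6
  have e7 : ‖p.1‖ * ‖(L (1, 0)).1‖ ≤ 2 * ‖(χ (p.1, p.1 * p.2)).1‖ := by nlinarith
  rw [div_mul_eq_mul_div, le_div_iff₀ hw0]
  exact e7

end lin

section main

variable {N : ℕ} {P : Ideal (MvPolynomial (Fin (N + 1)) ℂ)}

theorem neg_sector [P.IsPrime] {z : Fin 2 → FunField P} (hP : Homog P) (hz : IsTranscendenceBasis ℂ z) (hX : Surface (coneE P)) (hc : IsCone (coneE P))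
    (n : PseudoLength (coneE P)) {R : MvPolynomial (Fin (N + 1)) ℂ} {e : ℕ} (hR : R.IsHomogeneous e) (hRP : R ∉ P) (hN : NullIn P n R)
    {m j : ℕ} {Ω : EN N → EN N → EN N → ℂ} {Q : MvPolynomial (Fin (N + 1)) ℂ} {D μ : ℕ} {σ : ℂ × ℂ → EN N} {τ : EN N → ℂ × ℂ}
    (h : NegAt P m j Ω Q D μ σ τ) {H : ℂ → EN N} (hH : CurveAt (coneE P) H 0) (h0 : σ 0 = H 0) {σ' : ℂ × ℂ → EN N} {τ' : EN N → ℂ × ℂ}
    (hσ' : IsChart (coneE P) σ' τ') (h0' : σ' 0 = H 0) (hd : deriv (fun z => τ' (H z)) 0 = (1, 0))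
    (hn : n.toFun (σ' 0) (fderiv ℂ σ' 0 (1, 0)) ≠ 0) :
    (∀ᶠ p in 𝓝 (0 : ℂ × ℂ), eval (σ' (p.1, p.1 * p.2)).ofLp Q = 0 → p.1 = 0) ∧
      (∃ B : ℝ, ∀ᶠ p in 𝓝 (0 : ℂ × ℂ), ‖p.1‖ ^ μ ≤ B * ‖oC Ω σ' (p.1, p.1 * p.2)‖) ∧ (deriv (fun z => τ (H z)) 0).1 ≠ 0 := by
  have hXs := hX.smul
  have h00 : σ' 0 = σ 0 := h0'.trans h0.symm
  obtain ⟨c, χ, g⟩ := exists_chg hXs h.chart hσ' h00
  obtain ⟨G, a, hG, hGK, hGs⟩ := Pool.Agent.SG.exists_form hP hz hX hc n hR hRP hN hσ' hn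
  have hsc : ∀ {F : MvPolynomial (Fin (N + 1)) ℂ} {a : ℕ}, F.IsHomogeneous a → ∀ (b : ℂ) (y : EN N), eval (b • y).ofLp F = b ^ a * eval y.ofLp F := by
    intro F a hF b y
    exact Pool.Agent.H17EF.eval_smul_form hF b y.ofLp
  have hs : Tendsto (fun p : ℂ × ℂ => (p.1, p.1 * p.2)) (𝓝 0) (𝓝 (0 : ℂ × ℂ)) := tendsto_sector
  have hσ't : Tendsto σ' (𝓝 0) (𝓝 (σ 0)) := by
    have := hσ'.σ_an.continuousAt.tendsto
    rwa [h00] at this
  -- no point of the curve in the sector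
  have hA : ∀ᶠ p in 𝓝 (0 : ℂ × ℂ), eval (σ' (p.1, p.1 * p.2)).ofLp Q = 0 → p.1 = 0 := by
    filter_upwards [hGs, (hσ't.comp hs).eventually h.cover, hs.eventually hσ'.σ_mem] with p h1 h2 h3 h4
    obtain ⟨d, K, K', w, hd1, hK, b, hb, he⟩ := h2 ⟨h3, h4⟩
    apply h1
    have h5 := hGK d K K' hd1 hK w
    rw [he, hsc hG] at h5
    exact (mul_eq_zero.1 h5).resolve_left (pow_ne_zero _ hb)
  -- the direction
  have hdir : deriv (fun z => τ (H z)) 0 = fderiv ℂ χ 0 (1, 0) := by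
    rw [g.dir hXs h.chart hσ' h00 hH.1 hH.2 h0'.symm, hd]
  have hw : (fderiv ℂ χ 0 (1, 0)).1 ≠ 0 := by
    intro hw1
    obtain ⟨b, hb⟩ : ∃ b, b = (fderiv ℂ χ 0 (1, 0)).2 := ⟨_, rfl⟩
    have hw2 : fderiv ℂ χ 0 (1, 0) = (0, b) := Prod.ext hw1 hb.symm
    have hb0 : b ≠ 0 := by
      rintro rfl
      have := g.inj h.chart hσ' h00 (w := (1, 0)) hw2
      rw [Prod.mk_eq_zero] at this
      exact one_ne_zero this.1
    -- the curve `{p.1 = 0}` in the chart `σ'`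
    have k1 := g.fderiv_eq h.chart (1, 0)
    rw [hw2] at k1
    have k2 := fderiv_tau_comp hσ' (1, 0)
    rw [k1, map_add, map_smul, ← h00, fderiv_tau_self hσ', smul_zero, add_zero] at k2
    have k3 : ((0, b) : ℂ × ℂ) = b • (0, 1) := by ext <;> simp
    rw [k3, map_smul, map_smul] at k2
    have k4 : HasDerivAt (fun t : ℂ => τ' (σ (0, t))) (fderiv ℂ τ' (σ' 0) (fderiv ℂ σ 0 (0, 1))) 0 := by
      have k5 : HasDerivAt (fun t : ℂ => ((0 : ℂ), t)) ((0 : ℂ), (1 : ℂ)) 0 := (hasDerivAt_const _ _).prodMk (hasDerivAt_id _)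
      have k6 : HasFDerivAt σ (fderiv ℂ σ 0) ((0 : ℂ), (0 : ℂ)) := h.chart.σ_an.differentiableAt.hasFDerivAt
      have k7 : HasDerivAt (fun t : ℂ => σ (0, t)) (fderiv ℂ σ 0 (0, 1)) 0 := k6.comp_hasDerivAt 0 k5
      have k8 : HasFDerivAt τ' (fderiv ℂ τ' (σ' 0)) (σ ((0 : ℂ), (0 : ℂ))) := by
        have : σ ((0 : ℂ), (0 : ℂ)) = σ' 0 := h00.symm
        rw [this]
        exact hσ'.τ_an.differentiableAt.hasFDerivAt
      exact k8.comp_hasDerivAt 0 k7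
    have k9 : fderiv ℂ τ' (σ' 0) (fderiv ℂ σ 0 (0, 1)) = (b⁻¹, 0) := by
      have : fderiv ℂ τ' (σ' 0) (fderiv ℂ σ 0 (0, 1)) = b⁻¹ • ((1, 0) : ℂ × ℂ) := by
        rw [← k2, smul_smul, inv_mul_cancel₀ hb0, one_smul]
      rw [this]
      ext <;> simp
    rw [k9] at k4
    have k10 : τ' (σ (0, 0)) = 0 := by
      have : σ ((0 : ℂ), (0 : ℂ)) = σ' 0 := h00.symm
      rw [this]
      exact hσ'.left.self_of_nhds
    have k11 := hasDerivAt_iff_tendsto_slope_zero.1 k4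
    simp only [zero_add, k10, sub_zero] at k11
    obtain ⟨q, hq⟩ : ∃ q : ℂ → ℂ × ℂ, q = fun t => τ' (σ (0, t)) := ⟨_, rfl⟩
    have k12 : Tendsto (fun t : ℂ => t⁻¹ • q t) (𝓝[≠] 0) (𝓝 (b⁻¹, 0)) := by rw [hq]; exact k11
    have k13 : Tendsto (fun t : ℂ => t⁻¹ * (q t).1) (𝓝[≠] 0) (𝓝 b⁻¹) := (continuous_fst.tendsto _).comp k12
    have k14 : Tendsto (fun t : ℂ => t⁻¹ * (q t).2) (𝓝[≠] 0) (𝓝 0) := (continuous_snd.tendsto _).comp k12
    have k15 : Tendsto q (𝓝[≠] 0) (𝓝 0) := by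
      have := k4.continuousAt.tendsto.mono_left (nhdsWithin_le_nhds (s := {0}ᶜ))
      rw [k10] at this
      rw [hq]
      exact this
    have k16 : ∀ᶠ t in 𝓝[≠] (0 : ℂ), (q t).1 ≠ 0 := by
      filter_upwards [k13.eventually_ne (inv_ne_zero hb0)] with t ht h1
      apply ht
      rw [h1, mul_zero]
    have k17 : Tendsto (fun t : ℂ => (q t).2 / (q t).1) (𝓝[≠] 0) (𝓝 0) := by
      have := k14.div k13 (inv_ne_zero hb0)
      rw [zero_div] at this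
      refine this.congr' ?_
      filter_upwards [self_mem_nhdsWithin] with t ht
      have ht0 : t ≠ 0 := ht
      show t⁻¹ * (q t).2 / (t⁻¹ * (q t).1) = _
      rw [mul_div_mul_left _ _ (inv_ne_zero ht0)]
    have k18 : Tendsto (fun t : ℂ => ((q t).1, (q t).2 / (q t).1)) (𝓝[≠] 0) (𝓝 (0 : ℂ × ℂ)) := by
      have k19 : Tendsto (fun t : ℂ => (q t).1) (𝓝[≠] 0) (𝓝 (0 : ℂ × ℂ).1) := (continuous_fst.tendsto _).comp k15
      exact k19.prodMk_nhds k17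
    have k20 : Tendsto (fun t : ℂ => ((0 : ℂ), t)) (𝓝[≠] 0) (𝓝 (0 : ℂ × ℂ)) := by
      have : Continuous fun t : ℂ => ((0 : ℂ), t) := by fun_prop
      exact (this.tendsto 0).mono_left nhdsWithin_le_nhds
    obtain ⟨R₁, -, -, hred⟩ := h.red
    have k21 : ∀ᶠ y in 𝓝 (σ 0), y ∈ coneE P → ∃ c : ℂ, c ≠ 0 ∧ y = c • σ' (τ' y) := by
      rw [← h00]
      exact hσ'.right
    have k22 : Tendsto σ (𝓝 0) (𝓝 (σ 0)) := h.chart.σ_an.continuousAt.tendsto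
    obtain ⟨t, t1, t2, t3, t4, t5⟩ := ((k18.eventually hA).and (k16.and ((k20.eventually hred).and ((k20.eventually h.chart.σ_mem).and
      (k20.eventually (k22.eventually k21)))))).exists
    simp only at t1 t3
    apply t2
    apply t1
    obtain ⟨b', hb', ht⟩ := t5 t4
    rw [zero_mul, ht, hsc h.off.hom] at t3
    have t6 := (mul_eq_zero.1 t3).resolve_left (pow_ne_zero _ hb')
    have t7 : (q t).1 * ((q t).2 / (q t).1) = (q t).2 := mul_div_cancel₀ _ t2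
    rw [t7]
    have t8 : ((q t).1, (q t).2) = τ' (σ (0, t)) := by rw [hq]
    rw [t8]
    exact t6
  refine ⟨hA, ?_, by rw [hdir]; exact hw⟩
  obtain ⟨B, hB⟩ := h.order
  obtain ⟨B₁, hB₁, hle⟩ := g.oC_le hXs h.chart hσ' h00 h.off.form
  refine ⟨(2 / ‖(fderiv ℂ χ 0 (1, 0)).1‖) ^ μ * (|B| * B₁), ?_⟩
  filter_upwards [g.fst_le hw, hs.eventually hle, hs.eventually (g.tendsto.eventually hB)] with p p1 p2 p3
  have hC : (0 : ℝ) ≤ 2 / ‖(fderiv ℂ χ 0 (1, 0)).1‖ := by positivity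
  calc ‖p.1‖ ^ μ ≤ (2 / ‖(fderiv ℂ χ 0 (1, 0)).1‖ * ‖(χ (p.1, p.1 * p.2)).1‖) ^ μ := by gcongr
    _ = (2 / ‖(fderiv ℂ χ 0 (1, 0)).1‖) ^ μ * ‖(χ (p.1, p.1 * p.2)).1‖ ^ μ := by rw [mul_pow]
    _ ≤ (2 / ‖(fderiv ℂ χ 0 (1, 0)).1‖) ^ μ * (|B| * (B₁ * ‖oC Ω σ' (p.1, p.1 * p.2)‖)) := by
      refine mul_le_mul_of_nonneg_left (p3.trans ?_) (pow_nonneg hC _)
      refine (mul_le_mul_of_nonneg_right (le_abs_self B) (norm_nonneg _)).trans ?_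
      exact mul_le_mul_of_nonneg_left p2 (abs_nonneg _)
    _ = _ := by ring

end main

end Pool.Agent.SG2
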