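import Pool.Agent.H74.NB.Dec

/-!
# SG2 Scal: the scaling of a finite family of functions by their Taylor coefficients

`f i n → (z - w) ^ (M i) * q i z` near `w`, `c n → w`.  With the Taylor coefficients `A i l n` of `f i n` at `c n` put
`lam n = ∑ i, ∑ l < M i, ‖A i l n‖ ^ (1 / (M i - l))`.  Then `lam n ^ (-M i) * f i n (c n + lam n * u)` converges to a polynomial `P i` of degree `M i` with
leading coefficient `q i w`, and at least one lower coefficient of at least one of the `P i` is not zero.  On the neck `R₀ * lam n ≤ ‖h‖ ≤ δ` the function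
`f i n (c n + h)` is close to `q i w * h ^ M i`.
-/

set_option autoImplicit false
set_option linter.unusedSectionVars false

open Topology Filter Metric Polynomial

noncomputable section

namespace Pool.Agent.SG2

open Pool.Agent.H74.NB (CC it newton cc_it exists_lim unif_of_seq)

/-- the value of the Newton formula with equal nodes -/
theorem newton_const (F : ℂ → ℂ) (c : ℂ) (M : ℕ) (h : ℂ) :
    F (c + h) = ∑ l ∈ Finset.range M, h ^ l * it F (fun _ => c) l c + h ^ M * it F (fun _ => c) M (c + h) := by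
  have h1 := newton F (fun _ => c) M (c + h)
  simp only [add_sub_cancel_left, Finset.prod_const, Finset.card_range, smul_eq_mul] at h1
  exact h1

theorem scal {ι : Type} [Fintype ι] {𝒰 : Ultrafilter ℕ} {f : ι → ℕ → ℂ → ℂ} {q : ι → ℂ → ℂ} {M : ι → ℕ} {w : ℂ} {r : ℝ} (hr : 0 < r)
    (hf : ∀ i, ∀ᶠ n in (𝒰 : Filter ℕ), DifferentiableOn ℂ (f i n) (ball w r)) (hq : ∀ i, DifferentiableOn ℂ (q i) (ball w r))
    (hc : ∀ i, CC 𝒰 (f i) (fun z => (z - w) ^ M i * q i z) (ball w r)) {c : ℕ → ℂ} (hc0 : Tendsto c 𝒰 (𝓝 w))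
    (hne : ∀ᶠ n in (𝒰 : Filter ℕ), ∃ i, 0 < M i ∧ f i n (c n) ≠ 0) :
    ∃ (lam : ℕ → ℝ) (P : ι → ℂ[X]), (∀ᶠ n in (𝒰 : Filter ℕ), 0 < lam n) ∧ Tendsto lam 𝒰 (𝓝 0) ∧
      (∀ i, (P i).natDegree ≤ M i ∧ (P i).coeff (M i) = q i w) ∧ (∃ i, ∃ l, l < M i ∧ (P i).coeff l ≠ 0) ∧
      (∀ i, CC 𝒰 (fun n u => ((lam n : ℂ) ^ M i)⁻¹ * f i n (c n + lam n * u)) (fun u => (P i).eval u) Set.univ) ∧
      ∀ ε : ℝ, 0 < ε → ∃ R₀ δ : ℝ, 0 < R₀ ∧ 0 < δ ∧ ∀ᶠ n in (𝒰 : Filter ℕ), ∀ i, ∀ h : ℂ, R₀ * lam n ≤ ‖h‖ → ‖h‖ ≤ δ →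
        ‖f i n (c n + h) - h ^ M i * q i w‖ ≤ ε * ‖h‖ ^ M i := by
  have hww : w ∈ ball w r := mem_ball_self hr
  have hnw : ball w r ∈ 𝓝 w := isOpen_ball.mem_nhds hww
  -- the Taylor coefficients
  obtain ⟨A, hA⟩ : ∃ A : ι → ℕ → ℕ → ℂ, ∀ i l n, A i l n = it (f i n) (fun _ => c n) l (c n) := ⟨_, fun _ _ _ => rfl⟩
  have hit : ∀ i, ∀ l k, l + k = M i → CC 𝒰 (fun n => it (f i n) (fun _ => c n) l) (fun z => (z - w) ^ k • q i z) (ball w r) := by
    intro i l k hlk
    exact (cc_it (E := ℂ) hr (M := M i) (F := f i) (g := q i) (a := fun _ => c) (fun _ => hc0) (hf i) (hq i)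
      ((hc i).congr fun z _ => rfl) l k hlk).2
  have hA0 : ∀ i l, l < M i → Tendsto (A i l) 𝒰 (𝓝 0) := by
    intro i l hl
    have h1 : Tendsto (fun n => it (f i n) (fun _ => c n) l (c n)) 𝒰 (𝓝 ((w - w) ^ (M i - l) • q i w)) :=
      hit i l (M i - l) (by omega) w hww c hc0
    have h2 : ((w - w) ^ (M i - l) • q i w : ℂ) = 0 := by
      rw [sub_self, zero_pow (by omega), zero_smul]
    rw [h2] at h1
    exact h1.congr fun n => (hA i l n).symm
  have hitM : ∀ i, CC 𝒰 (fun n => it (f i n) (fun _ => c n) (M i)) (q i) (ball w r) := fun i =>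
    (hit i (M i) 0 (by omega)).congr fun z _ => by simp
  -- the scale
  obtain ⟨lam, hlam⟩ : ∃ lam : ℕ → ℝ, ∀ n, lam n = ∑ i, ∑ l ∈ Finset.range (M i), ‖A i l n‖ ^ (1 / ((M i - l : ℕ) : ℝ)) := ⟨_, fun _ => rfl⟩
  have hterm : ∀ i l n, 0 ≤ ‖A i l n‖ ^ (1 / ((M i - l : ℕ) : ℝ)) := fun i l n => Real.rpow_nonneg (norm_nonneg _) _
  have hlam0 : ∀ n, 0 ≤ lam n := fun n => by
    rw [hlam]
    exact Finset.sum_nonneg fun i _ => Finset.sum_nonneg fun l _ => hterm i l n
  have hle : ∀ i l n, l < M i → ‖A i l n‖ ^ (1 / ((M i - l : ℕ) : ℝ)) ≤ lam n := fun i l n hl => by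
    rw [hlam]
    refine le_trans ?_ (Finset.single_le_sum (f := fun i => ∑ l ∈ Finset.range (M i), ‖A i l n‖ ^ (1 / ((M i - l : ℕ) : ℝ)))
      (fun i _ => Finset.sum_nonneg fun l _ => hterm i l n) (Finset.mem_univ i))
    exact Finset.single_le_sum (f := fun l => ‖A i l n‖ ^ (1 / ((M i - l : ℕ) : ℝ))) (fun l _ => hterm i l n) (Finset.mem_range.2 hl)
  have hAle : ∀ i l n, l < M i → ‖A i l n‖ ≤ lam n ^ (M i - l) := fun i l n hl => by
    have h1 := hle i l n hl
    have h2 : (0 : ℝ) < ((M i - l : ℕ) : ℝ) := by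
      have : 0 < M i - l := by omega
      exact_mod_cast this
    have h3 : (‖A i l n‖ ^ (1 / ((M i - l : ℕ) : ℝ))) ^ (M i - l) = ‖A i l n‖ := by
      rw [← Real.rpow_natCast, ← Real.rpow_mul (norm_nonneg _), one_div, inv_mul_cancel₀ h2.ne', Real.rpow_one]
    calc ‖A i l n‖ = (‖A i l n‖ ^ (1 / ((M i - l : ℕ) : ℝ))) ^ (M i - l) := h3.symm
      _ ≤ lam n ^ (M i - l) := pow_le_pow_left₀ (hterm i l n) h1 _
  have hpos : ∀ᶠ n in (𝒰 : Filter ℕ), 0 < lam n := by
    filter_upwards [hne] with n hn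
    obtain ⟨i, hi, h0⟩ := hn
    refine lt_of_lt_of_le ?_ (hle i 0 n hi)
    refine Real.rpow_pos_of_pos (norm_pos_iff.2 ?_) _
    rw [hA]
    exact h0
  have htend : Tendsto lam 𝒰 (𝓝 0) := by
    have e0 : lam = fun n => ∑ i, ∑ l ∈ Finset.range (M i), ‖A i l n‖ ^ (1 / ((M i - l : ℕ) : ℝ)) := funext hlam
    rw [e0]
    have h1 : Tendsto (fun n => ∑ i, ∑ l ∈ Finset.range (M i), ‖A i l n‖ ^ (1 / ((M i - l : ℕ) : ℝ))) 𝒰
        (𝓝 (∑ i : ι, ∑ l ∈ Finset.range (M i), (0 : ℝ))) := by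
      refine tendsto_finsetSum _ fun i _ => tendsto_finsetSum _ fun l hl => ?_
      have hl' := Finset.mem_range.1 hl
      have h2 : (0 : ℝ) < 1 / ((M i - l : ℕ) : ℝ) := by
        have : 0 < M i - l := by omega
        have : (0 : ℝ) < ((M i - l : ℕ) : ℝ) := by exact_mod_cast this
        positivity
      have h3 : Tendsto (fun n => ‖A i l n‖) 𝒰 (𝓝 0) := by
        have := (hA0 i l hl').norm
        rwa [norm_zero] at this
      have h4 := h3.rpow_const (p := 1 / ((M i - l : ℕ) : ℝ)) (Or.inr h2.le)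
      rwa [Real.zero_rpow h2.ne'] at h4
    simpa using h1
  -- the limits of the coefficients
  have hcoef : ∀ i l, ∃ a : ℂ, l < M i → Tendsto (fun n => ((lam n : ℂ) ^ (M i - l))⁻¹ * A i l n) 𝒰 (𝓝 a) := by
    intro i l
    by_cases hl : l < M i
    · have h1 : ∀ᶠ n in (𝒰 : Filter ℕ), ((lam n : ℂ) ^ (M i - l))⁻¹ * A i l n ∈ closedBall (0 : ℂ) 1 := by
        filter_upwards [hpos] with n hn
        rw [mem_closedBall_zero_iff, norm_mul, norm_inv, norm_pow, Complex.norm_real, Real.norm_of_nonneg hn.le]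
        rw [inv_mul_le_iff₀ (pow_pos hn _), mul_one]
        exact hAle i l n hl
      obtain ⟨a, -, ha⟩ := exists_lim (isCompact_closedBall (0 : ℂ) 1) h1
      exact ⟨a, fun _ => ha⟩
    · exact ⟨0, fun h => absurd h hl⟩
  choose p hp using hcoef
  obtain ⟨P, hP⟩ : ∃ P : ι → ℂ[X], ∀ i, P i = ∑ l ∈ Finset.range (M i), C (p i l) * X ^ l + C (q i w) * X ^ M i := ⟨_, fun _ => rfl⟩
  have hPc : ∀ i l, l < M i → (P i).coeff l = p i l := fun i l hl => by
    rw [hP, coeff_add, finsetSum_coeff, coeff_C_mul, coeff_X_pow, if_neg (by omega), mul_zero, add_zero]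
    rw [Finset.sum_eq_single l]
    · rw [coeff_C_mul, coeff_X_pow, if_pos rfl, mul_one]
    · intro k _ hk
      rw [coeff_C_mul, coeff_X_pow, if_neg (by omega), mul_zero]
    · intro h
      exact absurd (Finset.mem_range.2 hl) h
  have hPM : ∀ i, (P i).coeff (M i) = q i w := fun i => by
    rw [hP, coeff_add, finsetSum_coeff, coeff_C_mul, coeff_X_pow, if_pos rfl, mul_one]
    rw [Finset.sum_eq_zero, zero_add]
    intro k hk
    have := Finset.mem_range.1 hk
    rw [coeff_C_mul, coeff_X_pow, if_neg (by omega), mul_zero]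
  have hPd : ∀ i, (P i).natDegree ≤ M i := fun i => by
    rw [hP]
    refine natDegree_add_le_of_degree_le ?_ (natDegree_C_mul_X_pow_le _ _)
    refine natDegree_sum_le_of_forall_le _ _ fun l hl => ?_
    exact (natDegree_C_mul_X_pow_le _ _).trans (Finset.mem_range.1 hl).le
  have hPe : ∀ i u, (P i).eval u = ∑ l ∈ Finset.range (M i), p i l * u ^ l + q i w * u ^ M i := fun i u => by
    rw [hP, eval_add, eval_finsetSum]
    simp
  refine ⟨lam, P, hpos, htend, fun i => ⟨hPd i, hPM i⟩, ?_, ?_, ?_⟩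
  · -- a lower coefficient is not zero
    by_contra hcon
    push Not at hcon
    have h0 : ∀ i l, l < M i → p i l = 0 := fun i l hl => by rw [← hPc i l hl]; exact hcon i l hl
    have h1 : ∀ᶠ n in (𝒰 : Filter ℕ), ∑ i, ∑ l ∈ Finset.range (M i), ‖((lam n : ℂ) ^ (M i - l))⁻¹ * A i l n‖ ^ (1 / ((M i - l : ℕ) : ℝ)) = 1 := by
      filter_upwards [hpos] with n hn
      have h2 : ∀ i, ∀ l ∈ Finset.range (M i), ‖((lam n : ℂ) ^ (M i - l))⁻¹ * A i l n‖ ^ (1 / ((M i - l : ℕ) : ℝ)) =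
          (lam n)⁻¹ * ‖A i l n‖ ^ (1 / ((M i - l : ℕ) : ℝ)) := by
        intro i l hl
        have hl' := Finset.mem_range.1 hl
        have h3 : (0 : ℝ) < ((M i - l : ℕ) : ℝ) := by
          have : 0 < M i - l := by omega
          exact_mod_cast this
        rw [norm_mul, norm_inv, norm_pow, Complex.norm_real, Real.norm_of_nonneg hn.le, Real.mul_rpow (by positivity) (norm_nonneg _),
          Real.inv_rpow (by positivity), ← Real.rpow_natCast, ← Real.rpow_mul hn.le, one_div, mul_inv_cancel₀ h3.ne', Real.rpow_one]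
      have h3 : ∑ i, ∑ l ∈ Finset.range (M i), ‖((lam n : ℂ) ^ (M i - l))⁻¹ * A i l n‖ ^ (1 / ((M i - l : ℕ) : ℝ)) = (lam n)⁻¹ * lam n := by
        conv_rhs => rw [hlam n, Finset.mul_sum]
        refine Finset.sum_congr rfl fun i _ => ?_
        rw [Finset.mul_sum, ← hlam n]
        exact Finset.sum_congr rfl (h2 i)
      rw [h3, inv_mul_cancel₀ hn.ne']
    have h2 : Tendsto (fun n => ∑ i, ∑ l ∈ Finset.range (M i), ‖((lam n : ℂ) ^ (M i - l))⁻¹ * A i l n‖ ^ (1 / ((M i - l : ℕ) : ℝ))) 𝒰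
        (𝓝 (∑ i : ι, ∑ l ∈ Finset.range (M i), (0 : ℝ))) := by
      refine tendsto_finsetSum _ fun i _ => tendsto_finsetSum _ fun l hl => ?_
      have hl' := Finset.mem_range.1 hl
      have h2 : (0 : ℝ) < 1 / ((M i - l : ℕ) : ℝ) := by
        have : 0 < M i - l := by omega
        have : (0 : ℝ) < ((M i - l : ℕ) : ℝ) := by exact_mod_cast this
        positivity
      have h3 : Tendsto (fun n => ‖((lam n : ℂ) ^ (M i - l))⁻¹ * A i l n‖) 𝒰 (𝓝 0) := by
        have := (hp i l hl').norm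
        rwa [h0 i l hl', norm_zero] at this
      have h4 := h3.rpow_const (p := 1 / ((M i - l : ℕ) : ℝ)) (Or.inr h2.le)
      rwa [Real.zero_rpow h2.ne'] at h4
    have h3 : (1 : ℝ) = ∑ i : ι, ∑ l ∈ Finset.range (M i), (0 : ℝ) :=
      tendsto_nhds_unique (tendsto_const_nhds.congr' (h1.mono fun n hn => hn.symm)) h2
    simp at h3
  · -- the limits
    intro i u₀ _ u hu
    have h1 : Tendsto (fun n => c n + lam n * u n) 𝒰 (𝓝 w) := by
      have h2 : Tendsto (fun n => (lam n : ℂ)) 𝒰 (𝓝 0) := by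
        have := (Complex.continuous_ofReal.tendsto 0).comp htend
        rwa [Complex.ofReal_zero] at this
      have := hc0.add (h2.mul hu)
      simpa using this
    have h2 := hitM i w hww _ h1
    have h3 : Tendsto (fun n => ∑ l ∈ Finset.range (M i), ((lam n : ℂ) ^ (M i - l))⁻¹ * A i l n * u n ^ l +
        it (f i n) (fun _ => c n) (M i) (c n + lam n * u n) * u n ^ M i) 𝒰 (𝓝 ((P i).eval u₀)) := by
      rw [hPe]
      refine Tendsto.add (tendsto_finsetSum _ fun l hl => ?_) (h2.mul (hu.pow _))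
      exact (hp i l (Finset.mem_range.1 hl)).mul (hu.pow _)
    refine h3.congr' ?_
    filter_upwards [hpos] with n hn
    have hl0 : (lam n : ℂ) ≠ 0 := by exact_mod_cast hn.ne'
    rw [newton_const (f i n) (c n) (M i) (lam n * u n), mul_add, Finset.mul_sum]
    congr 1
    · refine Finset.sum_congr rfl fun l hl => ?_
      have hl' := Finset.mem_range.1 hl
      have e1 : (lam n : ℂ) ^ M i = (lam n : ℂ) ^ (M i - l) * (lam n : ℂ) ^ l := by
        rw [← pow_add]
        congr 1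
        omega
      rw [← hA, e1, mul_pow]
      field_simp
    · rw [mul_pow]
      field_simp
  · -- the neck
    intro ε hε
    obtain ⟨K, hK⟩ : ∃ K : ℝ, K = ∑ i : ι, (M i : ℝ) := ⟨_, rfl⟩
    have hK0 : 0 ≤ K := by rw [hK]; exact Finset.sum_nonneg fun i _ => Nat.cast_nonneg _
    have hKi : ∀ i, (M i : ℝ) ≤ K := fun i => by
      rw [hK]
      exact Finset.single_le_sum (f := fun i => (M i : ℝ)) (fun i _ => Nat.cast_nonneg _) (Finset.mem_univ i)
    obtain ⟨R₀, hR₀⟩ : ∃ R₀ : ℝ, R₀ = max 1 (2 * (K + 1) / ε) := ⟨_, rfl⟩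
    have hR1 : 1 ≤ R₀ := by rw [hR₀]; exact le_max_left _ _
    have hR2 : 2 * (K + 1) / ε ≤ R₀ := by rw [hR₀]; exact le_max_right _ _
    have hR0 : 0 < R₀ := lt_of_lt_of_le one_pos hR1
    -- the radius
    have hδ : ∀ i, ∃ δ : ℝ, 0 < δ ∧ closedBall w (2 * δ) ⊆ ball w r ∧ ∀ z ∈ closedBall w (2 * δ), ‖q i z - q i w‖ ≤ ε / 4 := by
      intro i
      have h1 : ∀ᶠ z in 𝓝 w, ‖q i z - q i w‖ ≤ ε / 4 := by
        have h2 : Tendsto (fun z => ‖q i z - q i w‖) (𝓝 w) (𝓝 0) := by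
          have := (((hq i).continuousOn.continuousAt hnw).tendsto.sub_const (q i w)).norm
          simpa using this
        exact (h2.eventually (gt_mem_nhds (show (0 : ℝ) < ε / 4 by positivity))).mono fun z hz => hz.le
      obtain ⟨s, hs, hs2⟩ := Metric.eventually_nhds_iff_ball.1 (h1.and hnw)
      refine ⟨s / 4, by positivity, fun z hz => ?_, fun z hz => ?_⟩
      · exact (hs2 z (closedBall_subset_ball (by linarith) hz)).2
      · exact (hs2 z (closedBall_subset_ball (by linarith) hz)).1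
    choose δ' hδ1 hδ2 hδ3 using hδ
    obtain ⟨δ, hδ0, hδle⟩ : ∃ δ : ℝ, 0 < δ ∧ ∀ i, δ ≤ δ' i := by
      rcases isEmpty_or_nonempty ι with he | he
      · exact ⟨1, one_pos, fun i => he.elim i⟩
      · obtain ⟨i₀, hi₀⟩ := Finite.exists_min δ'
        exact ⟨δ' i₀, hδ1 i₀, hi₀⟩
    refine ⟨R₀, δ, hR0, hδ0, ?_⟩
    have hu : ∀ i, ∀ᶠ n in (𝒰 : Filter ℕ), ∀ z ∈ closedBall w (2 * δ), ‖it (f i n) (fun _ => c n) (M i) z - q i z‖ < ε / 4 := by
      intro i
      refine CC.unif (hitM i) (hq i).continuousOn isOpen_ball (isCompact_closedBall w (2 * δ)) ?_ (by positivity)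
      exact (closedBall_subset_closedBall (by have := hδle i; linarith)).trans (hδ2 i)
    have hcd : ∀ᶠ n in (𝒰 : Filter ℕ), c n ∈ ball w δ := hc0.eventually (isOpen_ball.mem_nhds (mem_ball_self hδ0))
    filter_upwards [Filter.eventually_all.2 hu, hcd, hpos] with n h1 h2 h3 i h hh1 hh2
    have hh0 : 0 < ‖h‖ := lt_of_lt_of_le (by positivity) hh1
    have hz : c n + h ∈ closedBall w (2 * δ) := by
      rw [mem_closedBall, dist_eq_norm]
      have h4 : ‖c n - w‖ < δ := by rwa [mem_ball, dist_eq_norm] at h2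
      calc ‖c n + h - w‖ = ‖(c n - w) + h‖ := by ring_nf
        _ ≤ ‖c n - w‖ + ‖h‖ := norm_add_le _ _
        _ ≤ 2 * δ := by linarith
    have h4 : ‖it (f i n) (fun _ => c n) (M i) (c n + h) - q i w‖ ≤ ε / 2 := by
      have h5 := h1 i (c n + h) hz
      have h6 := hδ3 i (c n + h) (closedBall_subset_closedBall (by have := hδle i; linarith) hz)
      calc ‖it (f i n) (fun _ => c n) (M i) (c n + h) - q i w‖
          = ‖(it (f i n) (fun _ => c n) (M i) (c n + h) - q i (c n + h)) + (q i (c n + h) - q i w)‖ := by ring_nf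
        _ ≤ ε / 4 + ε / 4 := (norm_add_le _ _).trans (add_le_add h5.le h6)
        _ = ε / 2 := by ring
    have h5 : ‖∑ l ∈ Finset.range (M i), h ^ l * A i l n‖ ≤ (ε / 2) * ‖h‖ ^ M i := by
      have h6 : ∀ l ∈ Finset.range (M i), ‖h ^ l * A i l n‖ ≤ R₀⁻¹ * ‖h‖ ^ M i := by
        intro l hl
        have hl' := Finset.mem_range.1 hl
        have h7 : lam n ≤ R₀⁻¹ * ‖h‖ := by
          rw [le_inv_mul_iff₀ hR0]
          exact hh1
        have h8 : lam n ^ (M i - l) ≤ R₀⁻¹ * ‖h‖ ^ (M i - l) := by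
          calc lam n ^ (M i - l) ≤ (R₀⁻¹ * ‖h‖) ^ (M i - l) := pow_le_pow_left₀ h3.le h7 _
            _ = R₀⁻¹ ^ (M i - l) * ‖h‖ ^ (M i - l) := mul_pow _ _ _
            _ ≤ R₀⁻¹ * ‖h‖ ^ (M i - l) := by
              refine mul_le_mul_of_nonneg_right ?_ (by positivity)
              exact pow_le_of_le_one (by positivity) (inv_le_one_of_one_le₀ hR1) (by omega)
        rw [norm_mul, norm_pow]
        calc ‖h‖ ^ l * ‖A i l n‖ ≤ ‖h‖ ^ l * (R₀⁻¹ * ‖h‖ ^ (M i - l)) :=
              mul_le_mul_of_nonneg_left ((hAle i l n hl').trans h8) (by positivity)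
          _ = R₀⁻¹ * ‖h‖ ^ (l + (M i - l)) := by rw [pow_add]; ring
          _ = R₀⁻¹ * ‖h‖ ^ M i := by rw [Nat.add_sub_cancel' hl'.le]
      refine (norm_sum_le_of_le _ h6).trans ?_
      rw [Finset.sum_const, Finset.card_range, nsmul_eq_mul, ← mul_assoc]
      refine mul_le_mul_of_nonneg_right ?_ (by positivity)
      have h7 : (M i : ℝ) ≤ K + 1 := (hKi i).trans (by linarith)
      have h8 : 2 * (K + 1) ≤ R₀ * ε := by rwa [div_le_iff₀ hε] at hR2
      rw [← div_eq_mul_inv, div_le_iff₀ hR0]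
      nlinarith
    have h6 : f i n (c n + h) - h ^ M i * q i w = ∑ l ∈ Finset.range (M i), h ^ l * A i l n +
        h ^ M i * (it (f i n) (fun _ => c n) (M i) (c n + h) - q i w) := by
      rw [newton_const (f i n) (c n) (M i) h]
      simp only [hA]
      ring
    rw [h6]
    calc ‖∑ l ∈ Finset.range (M i), h ^ l * A i l n + h ^ M i * (it (f i n) (fun _ => c n) (M i) (c n + h) - q i w)‖
        ≤ (ε / 2) * ‖h‖ ^ M i + ‖h‖ ^ M i * (ε / 2) := by
          refine (norm_add_le _ _).trans (add_le_add h5 ?_)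
          rw [norm_mul, norm_pow]
          exact mul_le_mul_of_nonneg_left h4 (by positivity)
      _ = ε * ‖h‖ ^ M i := by ring

end Pool.Agent.SG2
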