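import Pool.Agent.SG2.Defs
import Pool.Agent.H90.SG.Smooth

/-!
# SG2 Stub: the statements of the modules of G2 (surfaces with negative curves; never import this file in a hand-in)

A bubble of degree `M` at the point `x = H 0`: `μ` is the order of `Ω` at `x`.
* `μ < j M`: case (II), the point `x` is blown up, sector around the direction of `H`: `bub_sector`.
* `j M ≤ μ`: case (I), `x` is a smooth point of `T = {Q = 0}`, no blow-up: `bub_near`.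
-/

set_option autoImplicit false

open Topology Filter Metric MvPolynomial

noncomputable section

namespace Pool.Agent.SG2.Stub

open Pool.Agent.H36.BP (EN fs OrdTwo)
open Pool.Agent.H14.PP (IsCone CurveAt)
open Pool.Agent.H17BP (Surface IsChart Pr IsForm NoZeros Bihol)
open Pool.Agent.H22.W (PseudoLength)
open Pool.Agent.H17EF (coneE GT)
open Pool.Agent.H17LG.Variety (FunField)
open Pool.Agent.H13.SM (conTan)
open Pool.Agent.H62.FC (Homog)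
open Pool.Agent.UC (RatC)
open Pool.Agent.H36.TB (oC sm EnergyB)
open Pool.Agent.H90.SG (TBNear)
open Pool.Agent.SY (Ent Energy ModelS NullIn BubbleAt NoBubblesAll zer)

section energy

variable {V : Type} [NormedAddCommGroup V] [NormedSpace ℂ V]

/-- MODULE MaxL: the maximum principle `H36/TB/EnM.maxP` with a bound of the energy on the ball only. -/
theorem maxP_loc {X T : Set V} {nu rho : V → ℝ} {m j : ℕ} {Ω : V → V → V → ℂ} {M : ℕ} {c₀ C θ : ℝ} {g : (ℂ → V) → ℂ → ℝ} {pn : V → ℝ} {D₁ : ℕ}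
    (hX : Surface X) (hΩ : IsForm X m j Ω) (hm : 1 ≤ m) (hj : 1 ≤ j) (hθ : 0 < θ) (hθ1 : θ < 1)
    (E : EnergyB X T m j Ω nu rho M c₀ C g pn D₁ θ) {A : ℝ} {F : ℂ → V} (hF : Ent X T F) {w : ℂ} {R : ℝ} (hR : 0 < R)
    (hA : ∀ z ∈ closedBall w R, g F z ≤ A) {z : ℂ} (hz : z ∈ ball w R) :
    ∃ y ∈ sphere w R, g F z * pn (F z) ^ (-(θ * j / (m * D₁))) * Real.exp (C * A ^ 2 * ‖z - w‖ ^ 2) ≤
      g F y * pn (F y) ^ (-(θ * j / (m * D₁))) * Real.exp (C * A ^ 2 * R ^ 2) := by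
  sorry

/-- MODULE HasUI (helper90): the energy with the two-sided bound at the smooth point `σ 0` of `T` (`energyB_of_model`, `tbNear_of_tbAt`). -/
theorem exists_energy_near {N : ℕ} {X T : Set (EN N)} {m j : ℕ} {Ω : EN N → EN N → EN N → ℂ} {κ : Type} [Fintype κ] {Q : κ → EN N → ℂ}
    {D : ℕ} (h : ModelS X T m j Ω Q D) {σ : ℂ × ℂ → EN N} {τ : EN N → ℂ × ℂ} (hσ : IsChart X σ τ) (hT : ∀ᶠ p in 𝓝 (0 : ℂ × ℂ), (σ p ∈ T ↔ p.1 = 0))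
    {θ κ₁ : ℝ} (hθ : 0 < θ) (hθ1 : θ < 1) (hκ₁ : 0 < κ₁) :
    ∃ (M : ℕ) (c₀ C k : ℝ) (g : (ℂ → EN N) → ℂ → ℝ) (pn : EN N → ℝ) (D₁ : ℕ), 1 ≤ M ∧ 0 < k ∧ k ≤ κ₁ ∧ k ≤ 1 / 4 ∧
      EnergyB X T m j Ω (fun x => ‖x‖) (Pool.Agent.H14.KB.rhoS Q D) M c₀ C g pn D₁ θ ∧ TBNear X T m j Ω θ k σ τ g pn D₁ := by
  sorry

end energy

section chart

variable {N : ℕ} {X : Set (EN N)}

/-- MODULE NChA: a chart at a smooth point of `{Q = 0}`, `Q` reduced there, in which `L = 1` and the first coordinate is `Q / L ^ e`.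
(`H82/XB/Coord.chart_of_coord` with `f y = (Q y / L y ^ e, (τ ((L y)⁻¹ • y)).2)`, then `σ' p = (L (σ p))⁻¹ • σ p`.) -/
theorem exists_chart_red (hX : Surface X) {σ : ℂ × ℂ → EN N} {τ : EN N → ℂ × ℂ} (hσ : IsChart X σ τ) {L : EN N →L[ℂ] ℂ} (hL : L (σ 0) = 1)
    {Q : MvPolynomial (Fin (N + 1)) ℂ} {e : ℕ} (hQ : Q.IsHomogeneous e) {R : ℂ × ℂ → ℂ} (hR : AnalyticAt ℂ R 0) (hR0 : R 0 ≠ 0)
    (hred : ∀ᶠ p in 𝓝 (0 : ℂ × ℂ), eval (σ p).ofLp Q = p.1 * R p) :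
    ∃ (σ' : ℂ × ℂ → EN N) (τ' : EN N → ℂ × ℂ), IsChart X σ' τ' ∧ σ' 0 = σ 0 ∧ (∀ᶠ p in 𝓝 (0 : ℂ × ℂ), L (σ' p) = 1) ∧
      (∀ᶠ p in 𝓝 (0 : ℂ × ℂ), eval (σ' p).ofLp Q = p.1) ∧
      (∀ᶠ y in 𝓝 (σ 0), y ∈ X → (τ' y).1 = eval y.ofLp Q / L y ^ e ∧ L (σ' (τ' y)) = 1) ∧
      ∃ (θ : ℂ × ℂ → ℂ × ℂ) (S : ℂ × ℂ → ℂ), Bihol θ ∧ AnalyticAt ℂ S 0 ∧ S 0 = 1 ∧ (∀ᶠ p in 𝓝 (0 : ℂ × ℂ), σ' p = S p • σ (θ p)) ∧
        ∃ B : ℝ, 1 ≤ B ∧ ∀ᶠ p in 𝓝 (0 : ℂ × ℂ), B⁻¹ * ‖p.1‖ ≤ ‖(θ p).1‖ ∧ ‖(θ p).1‖ ≤ B * ‖p.1‖ := by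
  sorry

/-- MODULE NChB: the order of the form in another chart with the same curve `{p.1 = 0}`, and in a sector transversal to it. -/
theorem order_chart {m j : ℕ} {Ω : EN N → EN N → EN N → ℂ} (hX : Surface X) (hΩ : IsForm X m j Ω) {σ σ' : ℂ × ℂ → EN N} {τ τ' : EN N → ℂ × ℂ}
    (hσ : IsChart X σ τ) (hσ' : IsChart X σ' τ') (h0 : Pr (σ' 0) (σ 0)) {μ : ℕ} {B : ℝ} (ho : ∀ᶠ p in 𝓝 (0 : ℂ × ℂ), ‖p.1‖ ^ μ ≤ B * ‖oC Ω σ p‖) :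
    ∃ (θ : ℂ × ℂ → ℂ × ℂ) (B' : ℝ), Bihol θ ∧ (∀ᶠ p in 𝓝 (0 : ℂ × ℂ), Pr (σ' p) (σ (θ p))) ∧
      ∀ᶠ p in 𝓝 (0 : ℂ × ℂ), ‖(θ p).1‖ ^ μ ≤ B' * ‖oC Ω σ' p‖ := by
  sorry

end chart

section surface

variable {N : ℕ} {P : Ideal (MvPolynomial (Fin (N + 1)) ℂ)}

/-- MODULE NegS: a curve `H` of positive length is transversal to the negative curve; no point of `{Q = 0}` in a sector around its direction, and the
lower bound of the form in this sector.  (`exists_form`: the rational curves lie in `{G = 0}`, which has no points in the sector.  If the first component of the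
direction in the chart `σ` was `0` the curve `{p.1 = 0}` would be in the sector.) -/
theorem neg_sector [P.IsPrime] {z : Fin 2 → FunField P} (hP : Homog P) (hz : IsTranscendenceBasis ℂ z) (hX : Surface (coneE P)) (hc : IsCone (coneE P))
    (n : PseudoLength (coneE P)) {R : MvPolynomial (Fin (N + 1)) ℂ} {e : ℕ} (hR : R.IsHomogeneous e) (hRP : R ∉ P) (hN : NullIn P n R)
    {m j : ℕ} {Ω : EN N → EN N → EN N → ℂ} {Q : MvPolynomial (Fin (N + 1)) ℂ} {D μ : ℕ} {σ : ℂ × ℂ → EN N} {τ : EN N → ℂ × ℂ}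
    (h : NegAt P m j Ω Q D μ σ τ) {H : ℂ → EN N} (hH : CurveAt (coneE P) H 0) (h0 : σ 0 = H 0) {σ' : ℂ × ℂ → EN N} {τ' : EN N → ℂ × ℂ}
    (hσ' : IsChart (coneE P) σ' τ') (h0' : σ' 0 = H 0) (hd : deriv (fun z => τ' (H z)) 0 = (1, 0))
    (hn : n.toFun (σ' 0) (fderiv ℂ σ' 0 (1, 0)) ≠ 0) :
    (∀ᶠ p in 𝓝 (0 : ℂ × ℂ), eval (σ' (p.1, p.1 * p.2)).ofLp Q = 0 → p.1 = 0) ∧
      (∃ B : ℝ, ∀ᶠ p in 𝓝 (0 : ℂ × ℂ), ‖p.1‖ ^ μ ≤ B * ‖oC Ω σ' (p.1, p.1 * p.2)‖) ∧ (deriv (fun z => τ (H z)) 0).1 ≠ 0 := by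
  sorry

/-- MODULE CaseI (helper12; chart: helper36; core: helper70 `SG/NCore.core_I`): no bubbles of small degree at the smooth points of the negative curve.
`T = zer P Q`, `H90/SG/Poly.modelS_coneE`, `exists_energy_near` (`κ₁` small), `SY/BdN.bound_near` with the rational curves of degree `≤ M`, `maxP_loc`, `H90/SG/Order.exists_order_bound`:
`a = μ' / m < 1`, `b = θ j / m`. -/
theorem bub_near [P.IsPrime] {z : Fin 2 → FunField P} (hP : Homog P) (hz : IsTranscendenceBasis ℂ z)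
    (hsm : ∀ y : Fin (N + 1) → ℂ, y ≠ 0 → (∀ Q ∈ P, eval y Q = 0) → Module.finrank ℂ (conTan P y) ≤ 3)
    {n : PseudoLength (coneE P)} {T₀ : Set (EN N)} {𝒰 : Ultrafilter ℕ} {F : ℕ → ℂ → EN N} {v : ℕ → ℂ → ℂ} {H : ℂ → EN N} {u : ℂ → ℂ} {r : ℝ} {M : ℕ}
    (hb : BubbleAt (coneE P) T₀ n 𝒰 F v H u r M) (hM : 1 ≤ M) {m j : ℕ} {Ω : EN N → EN N → EN N → ℂ} {Q : MvPolynomial (Fin (N + 1)) ℂ} {D μ : ℕ}
    {σ : ℂ × ℂ → EN N} {τ : EN N → ℂ × ℂ} (h : NegAt P m j Ω Q D μ σ τ) (h0 : σ 0 = H 0) (htr : (deriv (fun z => τ (H z)) 0).1 ≠ 0)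
    (hμ : j * M ≤ μ) : False := by
  sorry

/-- MODULE CaseII (`SG/Bub` with a general form): no bubbles of degree `M`, `j M > μ`. -/
theorem bub_sector [P.IsPrime] {z : Fin 2 → FunField P} (hP : Homog P) (hz : IsTranscendenceBasis ℂ z)
    (hsm : ∀ y : Fin (N + 1) → ℂ, y ≠ 0 → (∀ Q ∈ P, eval y Q = 0) → Module.finrank ℂ (conTan P y) ≤ 3)
    {n : PseudoLength (coneE P)} {R : MvPolynomial (Fin (N + 1)) ℂ} {e : ℕ} (hR : R.IsHomogeneous e) (hRP : R ∉ P) (hN : NullIn P n R)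
    {T₀ : Set (EN N)} {𝒰 : Ultrafilter ℕ} {F : ℕ → ℂ → EN N} {v : ℕ → ℂ → ℂ} {H : ℂ → EN N} {u : ℂ → ℂ} {r : ℝ} {M : ℕ}
    (hb : BubbleAt (coneE P) T₀ n 𝒰 F v H u r M) {m j : ℕ} {Ω : EN N → EN N → EN N → ℂ} {Q : MvPolynomial (Fin (N + 1)) ℂ} {D μ : ℕ}
    (h : FormOff P m j Ω Q D) {σ : ℂ × ℂ → EN N} {τ : EN N → ℂ × ℂ} (hσ : IsChart (coneE P) σ τ) (h0 : σ 0 = H 0)
    (hd : deriv (fun z => τ (H z)) 0 = (1, 0)) (hs : ∀ᶠ p in 𝓝 (0 : ℂ × ℂ), eval (σ (p.1, p.1 * p.2)).ofLp Q = 0 → p.1 = 0)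
    (ho : ∃ B : ℝ, ∀ᶠ p in 𝓝 (0 : ℂ × ℂ), ‖p.1‖ ^ μ ≤ B * ‖oC Ω σ (p.1, p.1 * p.2)‖) (hμ : μ < j * M) : False := by
  sorry

/-- MODULE End2 -/
theorem noBubblesAll [P.IsPrime] {z : Fin 2 → FunField P} (hP : Homog P) (hz : IsTranscendenceBasis ℂ z)
    (hsm : ∀ y : Fin (N + 1) → ℂ, y ≠ 0 → (∀ Q ∈ P, eval y Q = 0) → Module.finrank ℂ (conTan P y) ≤ 3)
    (h : ∀ x ∈ coneE P, Free P x ∨ SmoothNeg P x ∨ NullPt P x) : NoBubblesAll P := by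
  sorry

end surface

end Pool.Agent.SG2.Stub
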